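import Mathlib
import Pool.Agent.TH504.CB.Indep

/-!
# Positivity and the commutant of the Hodge Lie algebra
-/

set_option autoImplicit false
set_option linter.unusedSectionVars false

namespace Pool.Agent.R913.Ind

open scoped ComplexOrder
open Matrix Module Pool.Agent.H204R3.SP Pool.Agent.H204R3.CM Pool.Agent.W437.HC
  Pool.Agent.W437.HD Pool.Agent.W437.HP Pool.Agent.W437.HR Pool.Agent.W548.Odd
  Pool.Agent.TH131.GHC

noncomputable section

variable {B : Type*} [Fintype B] [DecidableEq B] {D : Matrix B B ℂ}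

/-- A rational matrix as a complex matrix. -/
def qc (u : Matrix B B ℚ) : Matrix B B ℂ := u.map (fun x : ℚ => (x : ℂ))

theorem qc_mul (u v : Matrix B B ℚ) : qc (u * v) = qc u * qc v :=
  Matrix.map_mul (f := Rat.castHom ℂ)

theorem qc_inj {u v : Matrix B B ℚ} (h : qc u = qc v) : u = v := by
  ext i j
  have h1 := congrFun (congrFun h i) j
  simp only [qc, Matrix.map_apply] at h1
  exact_mod_cast h1

theorem qc_neg (u : Matrix B B ℚ) : qc (-u) = -qc u := by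
  ext i j
  simp [qc]

theorem qc_transpose (u : Matrix B B ℚ) : qc uᵀ = (qc u)ᵀ := rfl

theorem qc_aut (u : Matrix B B ℚ) (σ : ℂ →+* ℂ) : (qc u).map σ = qc u := by
  ext i j
  simp [qc]

/-- The complex conjugate matrix. -/
def cj (X : Matrix B B ℂ) : Matrix B B ℂ := X.map (starRingEnd ℂ)

theorem cj_mul (X Y : Matrix B B ℂ) : cj (X * Y) = cj X * cj Y :=
  Matrix.map_mul (f := starRingEnd ℂ)

theorem cj_cj (X : Matrix B B ℂ) : cj (cj X) = X := by
  ext i j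
  simp [cj]

variable (h : PolH D)

theorem O_eq : h.O = qc h.Om := rfl

theorem O_tr : (h.O)ᵀ = -h.O := by
  rw [O_eq, ← qc_transpose, h.tr, qc_neg]

theorem O_cj : cj h.O = h.O := qc_aut _ _

include h in
theorem D_cj : cj D = -D := by
  have h1 : cj D = cj ((-Complex.I) • h.J.map (fun x : ℝ => (x : ℂ))) := congrArg cj h.dj
  have h2 : -D = -((-Complex.I) • h.J.map (fun x : ℝ => (x : ℂ))) := congrArg (fun M => -M) h.dj
  rw [h1, h2]
  ext i j
  simp [cj]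

/-- The complex structure as a complex matrix. -/
def JC : Matrix B B ℂ := h.J.map (fun x : ℝ => (x : ℂ))

theorem D_eq : D = (-Complex.I) • JC h := h.dj

theorem J_eq : JC h = Complex.I • D := by
  have h1 : Complex.I • D = Complex.I • ((-Complex.I) • JC h) :=
    congrArg (fun M => Complex.I • M) (D_eq h)
  rw [h1, smul_smul]
  simp

theorem J_sq : JC h * JC h = -1 := by
  rw [J_eq, Matrix.smul_mul, Matrix.mul_smul, smul_smul, Complex.I_mul_I, h.dd, neg_one_smul]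

theorem J_sp : (JC h)ᵀ * h.O = -(h.O * JC h) := by
  have h1 : Dᵀ * h.O + h.O * D = 0 := h.sp
  rw [J_eq, transpose_smul, Matrix.smul_mul, Matrix.mul_smul, eq_neg_of_add_eq_zero_left h1,
    smul_neg]

/-- The square root of the metric. -/
def uC : Matrix B B ℂ := h.u.map (fun x : ℝ => (x : ℂ))

theorem uC_unit : IsUnit (uC h) := by
  have h1 := h.hu.map (Complex.ofRealHom.mapMatrix : Matrix B B ℝ →+* Matrix B B ℂ)
  exact h1

theorem pos' : h.O * (JC h)ᵀ = -((uC h)ᵀ * uC h) := by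
  have h1 := congrArg (fun M : Matrix B B ℝ => Complex.ofRealHom.mapMatrix M) h.pos
  simp only [map_mul, map_neg] at h1
  have h2 : Complex.ofRealHom.mapMatrix (h.Om.map (fun x : ℚ => (x : ℝ))) = h.O := by
    ext i j
    simp [PolH.O]
  rw [h2] at h1
  exact h1

theorem uC_cj : cj (uC h) = uC h := by
  ext i j
  simp [cj, uC]

/-- The inverse of the square root of the metric. -/
def uI : Matrix B B ℂ := (uC h)⁻¹

theorem uC_uI : uC h * uI h = 1 :=
  Matrix.mul_nonsing_inv _ ((Matrix.isUnit_iff_isUnit_det _).1 (uC_unit h))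

theorem uI_uC : uI h * uC h = 1 :=
  Matrix.nonsing_inv_mul _ ((Matrix.isUnit_iff_isUnit_det _).1 (uC_unit h))

theorem uI_cj : cj (uI h) = uI h := by
  have h1 : cj (uC h * uI h) = 1 := by
    rw [uC_uI]
    ext i j
    simp [cj, Matrix.one_apply, apply_ite]
  rw [cj_mul, uC_cj] at h1
  have h2 := congrArg (fun M => uI h * M) h1
  simp only [← mul_assoc, uI_uC, one_mul, mul_one] at h2
  exact h2

/-- `Om J = (uᵀ u)⁻¹`. -/
theorem OJ : h.O * JC h = uI h * (uI h)ᵀ := by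
  have h1 := pos' h
  -- multiply by the inverses
  have hT1 : (uI h)ᵀ * (uC h)ᵀ = 1 := by rw [← transpose_mul, uC_uI, transpose_one]
  have hT2 : (uC h)ᵀ * (uI h)ᵀ = 1 := by rw [← transpose_mul, uI_uC, transpose_one]
  have hOO : h.O * h.O = -1 := h.OO
  have hJJ : (JC h)ᵀ * (JC h)ᵀ = -1 := by
    rw [← transpose_mul, J_sq, transpose_neg, transpose_one]
  -- (O Jᵀ) (Jᵀ O) = 1
  have h2 : (h.O * (JC h)ᵀ) * ((JC h)ᵀ * h.O) = 1 := by
    rw [mul_assoc, ← mul_assoc (JC h)ᵀ, hJJ, neg_one_mul, mul_neg, hOO, neg_neg]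
  rw [h1, J_sp] at h2
  have h3 : (uC h)ᵀ * uC h * (h.O * JC h) = 1 := by
    rw [neg_mul_neg] at h2
    exact h2
  have h4 : uI h * (uI h)ᵀ * ((uC h)ᵀ * uC h * (h.O * JC h)) = h.O * JC h := by
    have h5 : uI h * (uI h)ᵀ * ((uC h)ᵀ * uC h * (h.O * JC h)) =
        uI h * ((uI h)ᵀ * (uC h)ᵀ) * uC h * (h.O * JC h) := by
      simp only [mul_assoc]
    rw [h5, hT1, mul_one, uI_uC, one_mul]
  rw [← h4, h3, mul_one]

/-- Positivity of the hermitian form. -/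
theorem form_ne_zero {v : B → ℂ} (hv : v ≠ 0) :
    v ⬝ᵥ (h.O *ᵥ (D *ᵥ (fun i => starRingEnd ℂ (v i)))) ≠ 0 := by
  intro h0
  apply hv
  have h1 : h.O * D = (-Complex.I) • (uI h * (uI h)ᵀ) := by
    have h2 : h.O * D = h.O * ((-Complex.I) • JC h) := congrArg (fun M => h.O * M) (D_eq h)
    rw [h2, Matrix.mul_smul, OJ]
  rw [mulVec_mulVec, h1, smul_mulVec, dotProduct_smul, smul_eq_mul] at h0
  have h2 := (mul_eq_zero.1 h0).resolve_left (by simp)
  rw [← mulVec_mulVec, dotProduct_mulVec, ← mulVec_transpose] at h2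
  have h3 : (uI h)ᵀ *ᵥ (fun i => starRingEnd ℂ (v i)) = star ((uI h)ᵀ *ᵥ v) := by
    funext i
    have h4 := congrArg (fun M : Matrix B B ℂ => M) (uI_cj h)
    simp only [mulVec, dotProduct, Pi.star_apply, transpose_apply, star_sum, star_mul']
    refine Finset.sum_congr rfl fun j _ => ?_
    have h5 := congrFun (congrFun h4 j) i
    simp only [cj, Matrix.map_apply] at h5
    rw [show star (uI h j i) = uI h j i from h5]
    rfl
  rw [h3, dotProduct_self_star_eq_zero] at h2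
  have h4 : (uC h)ᵀ *ᵥ ((uI h)ᵀ *ᵥ v) = v := by
    rw [mulVec_mulVec, ← transpose_mul, uI_uC, transpose_one, one_mulVec]
  rw [← h4, h2, mulVec_zero]

/-- The adjoint for the hermitian form of a matrix which commutes with `D`. -/
def adj (X : Matrix B B ℂ) : Matrix B B ℂ := -(h.O * (cj X)ᵀ * h.O)

/-- Positivity of the trace form. -/
theorem eq_zero_of_trace {X : Matrix B B ℂ} (hX : X * D = D * X) (h0 : trace (X * adj h X) = 0) :
    X = 0 := by
  have hT1 : (uI h)ᵀ * (uC h)ᵀ = 1 := by rw [← transpose_mul, uC_uI, transpose_one]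
  have hT2 : (uC h)ᵀ * (uI h)ᵀ = 1 := by rw [← transpose_mul, uI_uC, transpose_one]
  have hOO : h.O * h.O = -1 := h.OO
  have hJJ : (JC h)ᵀ * (JC h)ᵀ = -1 := by
    rw [← transpose_mul, J_sq, transpose_neg, transpose_one]
  -- `O = uᵀ u Jᵀ`
  have hO1 : h.O = (uC h)ᵀ * uC h * (JC h)ᵀ := by
    have h1 : h.O * (JC h)ᵀ * (JC h)ᵀ = -((uC h)ᵀ * uC h) * (JC h)ᵀ := by rw [pos']
    rw [mul_assoc, hJJ, mul_neg, mul_one, neg_mul, neg_inj] at h1
    exact h1
  -- `O = Jᵀ (uᵀ u)⁻¹`, up to sign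
  have hO2 : h.O = (JC h)ᵀ * (uI h * (uI h)ᵀ) := by
    have h1 : (JC h)ᵀ * h.O = -(uI h * (uI h)ᵀ) := by rw [J_sp, OJ]
    have h2 : (JC h)ᵀ * ((JC h)ᵀ * h.O) = -((JC h)ᵀ * (uI h * (uI h)ᵀ)) := by
      rw [h1, mul_neg]
    rw [← mul_assoc, hJJ, neg_one_mul, neg_inj] at h2
    exact h2
  have hc : (cj X)ᵀ * (JC h)ᵀ = (JC h)ᵀ * (cj X)ᵀ := by
    rw [← transpose_mul, ← transpose_mul]
    congr 1
    have h1 : cj (X * D) = cj (D * X) := by rw [hX]
    rw [cj_mul, cj_mul, D_cj h, mul_neg, neg_mul, neg_inj] at h1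
    rw [J_eq, Matrix.smul_mul, Matrix.mul_smul, h1]
  have h1 : adj h X = (uC h)ᵀ * uC h * (cj X)ᵀ * (uI h * (uI h)ᵀ) := by
    unfold adj
    have h2 : h.O * (cj X)ᵀ * h.O =
        ((uC h)ᵀ * uC h * (JC h)ᵀ) * (cj X)ᵀ * ((JC h)ᵀ * (uI h * (uI h)ᵀ)) := by
      rw [← hO1, ← hO2]
    rw [h2]
    have h3 : ((uC h)ᵀ * uC h * (JC h)ᵀ) * (cj X)ᵀ * ((JC h)ᵀ * (uI h * (uI h)ᵀ)) =
        (uC h)ᵀ * uC h * ((JC h)ᵀ * (cj X)ᵀ) * (JC h)ᵀ * (uI h * (uI h)ᵀ) := by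
      simp only [mul_assoc]
    rw [h3, ← hc]
    have h4 : (uC h)ᵀ * uC h * ((cj X)ᵀ * (JC h)ᵀ) * (JC h)ᵀ * (uI h * (uI h)ᵀ) =
        (uC h)ᵀ * uC h * (cj X)ᵀ * ((JC h)ᵀ * (JC h)ᵀ) * (uI h * (uI h)ᵀ) := by
      simp only [mul_assoc]
    rw [h4, hJJ]
    noncomm_ring
  obtain ⟨M, hM⟩ : ∃ M, M = (uI h)ᵀ * X * (uC h)ᵀ := ⟨_, rfl⟩
  have hMH : Mᴴ = uC h * (cj X)ᵀ * uI h := by
    have e1 : Mᴴ = (cj M)ᵀ := rfl
    have e2 : cj (uI h)ᵀ = (uI h)ᵀ := by
      change (cj (uI h))ᵀ = _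
      rw [uI_cj]
    have e3 : cj (uC h)ᵀ = (uC h)ᵀ := by
      change (cj (uC h))ᵀ = _
      rw [uC_cj]
    rw [e1, hM, cj_mul, cj_mul, e2, e3, transpose_mul, transpose_mul, transpose_transpose,
      transpose_transpose, mul_assoc]
  have h2 : trace (M * Mᴴ) = trace (X * adj h X) := by
    rw [hMH, hM, h1]
    have e1 : (uI h)ᵀ * X * (uC h)ᵀ * (uC h * (cj X)ᵀ * uI h) =
        (uI h)ᵀ * (X * (uC h)ᵀ * uC h * (cj X)ᵀ * uI h) := by simp only [mul_assoc]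
    have e2 : X * ((uC h)ᵀ * uC h * (cj X)ᵀ * (uI h * (uI h)ᵀ)) =
        (X * (uC h)ᵀ * uC h * (cj X)ᵀ * uI h) * (uI h)ᵀ := by simp only [mul_assoc]
    rw [e1, e2, trace_mul_comm]
  rw [h0, trace_mul_conjTranspose_self_eq_zero_iff] at h2
  have h3 : (uC h)ᵀ * M * (uI h)ᵀ = X := by
    rw [hM]
    have e1 : (uC h)ᵀ * ((uI h)ᵀ * X * (uC h)ᵀ) * (uI h)ᵀ =
        ((uC h)ᵀ * (uI h)ᵀ) * X * ((uC h)ᵀ * (uI h)ᵀ) := by simp only [mul_assoc]
    rw [e1, hT2, one_mul, mul_one]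
  rw [← h3, h2, mul_zero, zero_mul]

include h in
/-- Rational endomorphisms commute with the Hodge Lie algebra. -/
theorem comm_lie {u : Matrix B B ℚ} (hu : qc u * D = D * qc u) {X : Matrix B B ℂ}
    (hX : X ∈ lieM D ℂ) : qc u * X = X * qc u := by
  have hsp : Dᵀ * h.O + h.O * D = 0 := h.sp
  have h1 : IsH D (bilc (h.Om * u)) := by
    apply isH_bilc
    change Dᵀ * qc (h.Om * u) + qc (h.Om * u) * D = 0
    rw [qc_mul, ← O_eq, ← mul_assoc, eq_neg_of_add_eq_zero_left hsp, neg_mul, mul_assoc,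
      mul_assoc, hu, neg_add_cancel]
  have h2 : Xᵀ * qc (h.Om * u) + qc (h.Om * u) * X = 0 := lieM_bil D h1 hX
  have hX2 : Xᵀ * h.O + h.O * X = 0 := h.lie_sp hX
  rw [qc_mul, ← O_eq, ← mul_assoc, eq_neg_of_add_eq_zero_left hX2, neg_mul, mul_assoc,
    mul_assoc] at h2
  have h3 : h.O * (X * qc u) = h.O * (qc u * X) := (neg_add_eq_zero.1 h2)
  have h4 : h.O * (h.O * (X * qc u)) = h.O * (h.O * (qc u * X)) := by rw [h3]
  rw [← mul_assoc, ← mul_assoc h.O h.O, h.OO, neg_one_mul, neg_one_mul] at h4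
  exact (neg_injective h4).symm

end

end Pool.Agent.R913.Ind
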