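import Mathlib
import Pool.Agent.R913.Ind.Pos

/-!
# Commuting ideals of the Hodge Lie algebra and the center of the endomorphism algebra
-/

set_option autoImplicit false
set_option linter.unusedSectionVars false

namespace Pool.Agent.R913.Ind

open scoped ComplexOrder
open Matrix Module Pool.Agent.H204R3.SP Pool.Agent.H204R3.CM Pool.Agent.W437.HC
  Pool.Agent.W437.HD Pool.Agent.W437.HP Pool.Agent.W437.HR Pool.Agent.W548.Odd
  Pool.Agent.TH131.GHC

noncomputable section

variable {B : Type*} [Fintype B] [DecidableEq B] {D : Matrix B B ℂ}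

/-- Four times the part of weight two. -/
def up (D X : Matrix B B ℂ) : Matrix B B ℂ := (1 + D) * X * (1 - D)

/-- Four times the part of weight minus two. -/
def dn (D X : Matrix B B ℂ) : Matrix B B ℂ := (1 - D) * X * (1 + D)

section alg

variable (hD : D * D = 1)

include hD

theorem D_up (X : Matrix B B ℂ) : D * up D X = up D X := by
  unfold up
  rw [← mul_assoc, ← mul_assoc, mul_add, mul_one, hD, add_comm D 1]

theorem up_D (X : Matrix B B ℂ) : up D X * D = -up D X := by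
  unfold up
  rw [mul_assoc, sub_mul, one_mul, hD, ← neg_sub 1 D, mul_neg]

theorem D_dn (X : Matrix B B ℂ) : D * dn D X = -dn D X := by
  unfold dn
  rw [← mul_assoc, ← mul_assoc, mul_sub, mul_one, hD, ← neg_sub 1 D, neg_mul, neg_mul]

theorem dn_D (X : Matrix B B ℂ) : dn D X * D = dn D X := by
  unfold dn
  rw [mul_assoc, add_mul, one_mul, hD, add_comm D 1]

theorem up_sub_dn (X : Matrix B B ℂ) : up D X - dn D X = (2 : ℂ) • (D * X - X * D) := by
  unfold up dn
  rw [two_smul]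
  noncomm_ring

theorem up_eq (X : Matrix B B ℂ) : up D X =
    (D * X - X * D) + (2 : ℂ)⁻¹ • (D * (D * X - X * D) - (D * X - X * D) * D) := by
  have h1 : D * (D * X - X * D) - (D * X - X * D) * D = (2 : ℂ) • (X - D * X * D) := by
    have h2 : D * (D * X - X * D) - (D * X - X * D) * D =
        (D * D) * X - (2 : ℂ) • (D * X * D) + X * (D * D) := by
      rw [two_smul]
      noncomm_ring
    rw [h2, hD, one_mul, mul_one, smul_sub, two_smul ℂ X]
    abel
  rw [h1, smul_smul, inv_mul_cancel₀ two_ne_zero, one_smul]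
  unfold up
  noncomm_ring

theorem dn_eq (X : Matrix B B ℂ) : dn D X =
    -(D * X - X * D) + (2 : ℂ)⁻¹ • (D * (D * X - X * D) - (D * X - X * D) * D) := by
  have h1 := up_sub_dn hD X
  have h2 := up_eq hD X
  have h3 : dn D X = up D X - (2 : ℂ) • (D * X - X * D) := by rw [← h1]; abel
  rw [h3, h2, two_smul]
  abel

theorem up_fix {R : Matrix B B ℂ} (h1 : D * R = R) (h2 : R * D = -R) :
    up D R = (4 : ℂ) • R := by
  unfold up
  rw [add_mul, one_mul, h1, mul_sub, mul_one, add_mul, h2]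
  have : (4 : ℂ) • R = R + R + R + R := by
    rw [show (4 : ℂ) = 1 + 1 + 1 + 1 by norm_num, add_smul, add_smul, add_smul, one_smul]
  rw [this]
  abel

theorem dn_fix {R : Matrix B B ℂ} (h1 : D * R = -R) (h2 : R * D = R) :
    dn D R = (4 : ℂ) • R := by
  unfold dn
  rw [sub_mul, one_mul, h1, mul_add, mul_one, sub_mul, h2, neg_mul, h2]
  have : (4 : ℂ) • R = R + R + R + R := by
    rw [show (4 : ℂ) = 1 + 1 + 1 + 1 by norm_num, add_smul, add_smul, add_smul, one_smul]
  rw [this]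
  abel

end alg

theorem two_ne (X : Matrix B B ℂ) (h : X = -X) : X = 0 := by
  have h1 : (2 : ℂ) • X = 0 := by
    rw [two_smul]
    nth_rewrite 1 [h]
    exact neg_add_cancel X
  exact (smul_eq_zero.1 h1).resolve_left two_ne_zero

section ker

variable (h : PolH D) {k k' : Submodule ℂ (Matrix B B ℂ)}

include h in
theorem up_mem (hk : GalD D k) {X : Matrix B B ℂ} (hX : X ∈ k) : up D X ∈ k := by
  rw [up_eq h.dd]
  exact k.add_mem (hk.dn _ hX) (k.smul_mem _ (hk.dn _ (hk.dn _ hX)))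

include h in
theorem dn_mem (hk : GalD D k) {X : Matrix B B ℂ} (hX : X ∈ k) : dn D X ∈ k := by
  rw [dn_eq h.dd]
  exact k.add_mem (k.neg_mem (hk.dn _ hX)) (k.smul_mem _ (hk.dn _ (hk.dn _ hX)))

/-- The vectors killed by the parts of weights `2`, `-2`. -/
def N1 (D : Matrix B B ℂ) (k : Submodule ℂ (Matrix B B ℂ)) : Submodule ℂ (B → ℂ) where
  carrier := {v | ∀ X ∈ k, up D X *ᵥ v = 0 ∧ dn D X *ᵥ v = 0}
  zero_mem' := fun X _ => ⟨mulVec_zero _, mulVec_zero _⟩
  add_mem' := by
    intro a b ha hb X hX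
    rw [mulVec_add, mulVec_add, (ha X hX).1, (hb X hX).1, (ha X hX).2, (hb X hX).2]
    exact ⟨add_zero _, add_zero _⟩
  smul_mem' := by
    intro r a ha X hX
    rw [mulVec_smul, mulVec_smul, (ha X hX).1, (ha X hX).2]
    exact ⟨smul_zero _, smul_zero _⟩

variable (hk : GalD D k) (hk' : GalD D k') (hcomm : ∀ X ∈ k, ∀ Y ∈ k', X * Y = Y * X)

include h hk hk' hcomm

/-- The products of the parts of weights `2`, `-2` vanish. -/
theorem prod_zero {X Y : Matrix B B ℂ} (hX : X ∈ k) (hY : Y ∈ k') :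
    (up D X * up D Y = 0 ∧ dn D X * up D Y = 0) ∧ (up D X * dn D Y = 0 ∧ dn D X * dn D Y = 0) := by
  have hD := h.dd
  refine ⟨⟨?_, ?_⟩, ?_, ?_⟩
  · -- `P Q = -(P D) Q = -P (D Q) = -P Q`
    apply two_ne
    nth_rewrite 1 [show up D X = -(up D X * D) by rw [up_D hD, neg_neg]]
    rw [neg_mul, mul_assoc, D_up hD]
  · -- commuting: `D (P Q)`
    apply two_ne
    have h1 := hcomm _ (dn_mem h hk hX) _ (up_mem h hk' hY)
    have h2 : D * (dn D X * up D Y) = -(dn D X * up D Y) := by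
      rw [← mul_assoc, D_dn hD, neg_mul]
    have h3 : D * (dn D X * up D Y) = dn D X * up D Y := by
      rw [h1, ← mul_assoc, D_up hD]
    exact h3.symm.trans h2
  · apply two_ne
    have h1 := hcomm _ (up_mem h hk hX) _ (dn_mem h hk' hY)
    have h2 : D * (up D X * dn D Y) = up D X * dn D Y := by
      rw [← mul_assoc, D_up hD]
    have h3 : D * (up D X * dn D Y) = -(up D X * dn D Y) := by
      rw [h1, ← mul_assoc, D_dn hD, neg_mul]
    exact h2.symm.trans h3
  · apply two_ne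
    nth_rewrite 1 [show dn D X = dn D X * D by rw [dn_D hD]]
    rw [mul_assoc, D_dn hD, mul_neg]

omit hk' hcomm in
/-- `D` commutes with the ideal on the kernel. -/
theorem N1_comm {v : B → ℂ} (hv : v ∈ N1 D k) {X : Matrix B B ℂ} (hX : X ∈ k) :
    (D * X - X * D) *ᵥ v = 0 := by
  have h1 := congrArg (fun M => M *ᵥ v) (up_sub_dn h.dd X)
  simp only [sub_mulVec, smul_mulVec] at h1
  rw [(hv X hX).1, (hv X hX).2, sub_zero] at h1
  rw [sub_mulVec]
  exact (smul_eq_zero.1 h1.symm).resolve_left two_ne_zero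

omit hk' hcomm in
/-- The kernel is stable under the ideal. -/
theorem N1_k {v : B → ℂ} (hv : v ∈ N1 D k) {W : Matrix B B ℂ} (hW : W ∈ k) :
    W *ᵥ v ∈ N1 D k := by
  have hD := h.dd
  obtain ⟨W0, hW0⟩ : ∃ W0, W0 = W - (4 : ℂ)⁻¹ • (up D W + dn D W) := ⟨_, rfl⟩
  have hW0k : W0 ∈ k := by
    rw [hW0]
    exact k.sub_mem hW (k.smul_mem _ (k.add_mem (up_mem h hk hW) (dn_mem h hk hW)))
  have hWv : W *ᵥ v = W0 *ᵥ v := by
    rw [hW0, sub_mulVec, smul_mulVec, add_mulVec, (hv W hW).1, (hv W hW).2, add_zero, smul_zero,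
      sub_zero]
  have hWD : D * W0 = W0 * D := by
    have h1 : D * W0 = D * W - (4 : ℂ)⁻¹ • (up D W - dn D W) := by
      rw [hW0, mul_sub, mul_smul_comm, mul_add, D_up hD, D_dn hD, sub_eq_add_neg (up D W)]
    have h2 : W0 * D = W * D - (4 : ℂ)⁻¹ • (-up D W + dn D W) := by
      rw [hW0, sub_mul, smul_mul_assoc, add_mul, up_D hD, dn_D hD]
    have h3 := up_sub_dn hD W
    have h4 : (4 : ℂ)⁻¹ • (up D W - dn D W) - (4 : ℂ)⁻¹ • (-up D W + dn D W) = D * W - W * D := by
      rw [← smul_sub]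
      have h5 : up D W - dn D W - (-up D W + dn D W) = (2 : ℂ) • (up D W - dn D W) := by
        rw [two_smul]
        abel
      rw [h5, h3, smul_smul, smul_smul]
      norm_num
    rw [← sub_eq_zero, h1, h2]
    have h5 : D * W - (4 : ℂ)⁻¹ • (up D W - dn D W) - (W * D - (4 : ℂ)⁻¹ • (-up D W + dn D W)) =
        (D * W - W * D) - ((4 : ℂ)⁻¹ • (up D W - dn D W) - (4 : ℂ)⁻¹ • (-up D W + dn D W)) := by
      abel
    rw [h5, h4, sub_self]
  intro X hX
  rw [hWv]
  constructor
  · obtain ⟨R, hR⟩ : ∃ R, R = up D X * W0 - W0 * up D X := ⟨_, rfl⟩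
    have hRk : R ∈ k := by
      rw [hR]
      exact h.ideal hk (up_mem h hk hX) (hk.le hW0k)
    have h1 : D * R = R := by
      rw [hR, mul_sub, ← mul_assoc, D_up hD, ← mul_assoc, hWD, mul_assoc, D_up hD]
    have h2 : R * D = -R := by
      rw [hR, sub_mul, mul_assoc, ← hWD, ← mul_assoc, up_D hD, mul_assoc, up_D hD, neg_mul,
        mul_neg]
      abel
    have h3 := (hv R hRk).1
    rw [up_fix hD h1 h2, smul_mulVec] at h3
    have h4 : R *ᵥ v = 0 := (smul_eq_zero.1 h3).resolve_left (by norm_num)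
    rw [hR, sub_mulVec, ← mulVec_mulVec, ← mulVec_mulVec, (hv X hX).1, mulVec_zero, sub_zero] at h4
    exact h4
  · obtain ⟨R, hR⟩ : ∃ R, R = dn D X * W0 - W0 * dn D X := ⟨_, rfl⟩
    have hRk : R ∈ k := by
      rw [hR]
      exact h.ideal hk (dn_mem h hk hX) (hk.le hW0k)
    have h1 : D * R = -R := by
      rw [hR, mul_sub, ← mul_assoc, D_dn hD, ← mul_assoc, hWD, mul_assoc, D_dn hD, neg_mul,
        mul_neg]
      abel
    have h2 : R * D = R := by
      rw [hR, sub_mul, mul_assoc, ← hWD, ← mul_assoc, dn_D hD, mul_assoc, dn_D hD]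
    have h3 := (hv R hRk).2
    rw [dn_fix hD h1 h2, smul_mulVec] at h3
    have h4 : R *ᵥ v = 0 := (smul_eq_zero.1 h3).resolve_left (by norm_num)
    rw [hR, sub_mulVec, ← mulVec_mulVec, ← mulVec_mulVec, (hv X hX).2, mulVec_zero, sub_zero] at h4
    exact h4

omit hk' in
/-- The kernel is stable under matrices which commute with the ideal. -/
theorem N1_k' {v : B → ℂ} (hv : v ∈ N1 D k) {Y : Matrix B B ℂ} (hY : Y ∈ k') :
    Y *ᵥ v ∈ N1 D k := by
  intro X hX
  rw [mulVec_mulVec, mulVec_mulVec, hcomm _ (up_mem h hk hX) _ hY,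
    hcomm _ (dn_mem h hk hX) _ hY, ← mulVec_mulVec, ← mulVec_mulVec, (hv X hX).1, (hv X hX).2,
    mulVec_zero]
  exact ⟨rfl, rfl⟩

omit hk hk' hcomm in
theorem N1_D {v : B → ℂ} (hv : v ∈ N1 D k) : D *ᵥ v ∈ N1 D k := by
  intro X hX
  rw [mulVec_mulVec, mulVec_mulVec, up_D h.dd, dn_D h.dd, neg_mulVec, (hv X hX).1, (hv X hX).2,
    neg_zero]
  exact ⟨rfl, rfl⟩

omit hk' hcomm in
theorem N1_conj {v : B → ℂ} (hv : v ∈ N1 D k) :
    (fun i => starRingEnd ℂ (v i)) ∈ N1 D k := by
  intro X hX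
  have hXc : cj X ∈ k := hk.gal Complex.conjAe.toRingEquiv X hX
  have key : ∀ M : Matrix B B ℂ, cj M *ᵥ v = 0 → M *ᵥ (fun i => starRingEnd ℂ (v i)) = 0 := by
    intro M hM
    funext i
    have h1 := congrArg (starRingEnd ℂ) (congrFun hM i)
    simp only [mulVec, dotProduct, cj, Matrix.map_apply, map_sum, map_mul,
      starRingEnd_self_apply, Pi.zero_apply, map_zero] at h1
    exact h1
  have c1 : cj (1 : Matrix B B ℂ) = 1 := by
    ext i j
    simp [cj, Matrix.one_apply, apply_ite]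
  have cadd : ∀ M N : Matrix B B ℂ, cj (M + N) = cj M + cj N := by
    intro M N
    ext i j
    simp [cj]
  have csub : ∀ M N : Matrix B B ℂ, cj (M - N) = cj M - cj N := by
    intro M N
    ext i j
    simp [cj]
  constructor
  · apply key
    have h1 : cj (up D X) = dn D (cj X) := by
      unfold up dn
      rw [cj_mul, cj_mul, cadd, csub, c1, D_cj h]
      simp only [sub_neg_eq_add, ← sub_eq_add_neg]
    rw [h1]
    exact (hv _ hXc).2
  · apply key
    have h1 : cj (dn D X) = up D (cj X) := by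
      unfold up dn
      rw [cj_mul, cj_mul, cadd, csub, c1, D_cj h]
      simp only [sub_neg_eq_add, ← sub_eq_add_neg]
    rw [h1]
    exact (hv _ hXc).1

omit hk' hcomm in
theorem N1_end {v : B → ℂ} (hv : v ∈ N1 D k) {u : Matrix B B ℚ} (hu : qc u * D = D * qc u) :
    qc u *ᵥ v ∈ N1 D k := by
  intro X hX
  rw [mulVec_mulVec, mulVec_mulVec, ← comm_lie h hu (hk.le (up_mem h hk hX)),
    ← comm_lie h hu (hk.le (dn_mem h hk hX)), ← mulVec_mulVec, ← mulVec_mulVec, (hv X hX).1,
    (hv X hX).2, mulVec_zero]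
  exact ⟨rfl, rfl⟩

end ker

end

end Pool.Agent.R913.Ind
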