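import Mathlib
import Pool.Agent.R913.Ind.Split

/-!
# The projector on the kernel
-/

set_option autoImplicit false
set_option linter.unusedSectionVars false

namespace Pool.Agent.R913.Ind

open scoped ComplexOrder
open Matrix Module Pool.Agent.H204R3.SP Pool.Agent.H204R3.CM Pool.Agent.W437.HC
  Pool.Agent.W437.HD Pool.Agent.W437.HP Pool.Agent.W437.HR Pool.Agent.W548.Odd
  Pool.Agent.TH131.GHC

noncomputable section

variable {B : Type*} [Fintype B] [DecidableEq B] {D : Matrix B B ℂ}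

theorem ext_mulVec {M N : Matrix B B ℂ} (h : ∀ v, M *ᵥ v = N *ᵥ v) : M = N := by
  ext i j
  have h1 := congrFun (h (Pi.single j 1)) i
  rw [mulVec_single_one, mulVec_single_one] at h1
  exact h1

/-- The matrices which commute with the Hodge Lie algebra and with the rational endomorphisms. -/
def Cen (D : Matrix B B ℂ) : Submodule ℂ (Matrix B B ℂ) where
  carrier := {z | (∀ X ∈ lieM D ℂ, z * X = X * z) ∧
    ∀ u : Matrix B B ℚ, qc u * D = D * qc u → z * qc u = qc u * z}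
  zero_mem' := ⟨fun X _ => by rw [zero_mul, mul_zero], fun u _ => by rw [zero_mul, mul_zero]⟩
  add_mem' := by
    rintro a b ⟨h1, h2⟩ ⟨h3, h4⟩
    exact ⟨fun X hX => by rw [add_mul, mul_add, h1 X hX, h3 X hX],
      fun u hu => by rw [add_mul, mul_add, h2 u hu, h4 u hu]⟩
  smul_mem' := by
    rintro r a ⟨h1, h2⟩
    exact ⟨fun X hX => by rw [smul_mul_assoc, mul_smul_comm, h1 X hX],
      fun u hu => by rw [smul_mul_assoc, mul_smul_comm, h2 u hu]⟩

theorem Cen_mul {z w : Matrix B B ℂ} (hz : z ∈ Cen D) (hw : w ∈ Cen D) : z * w ∈ Cen D :=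
  ⟨fun X hX => by rw [mul_assoc, hw.1 X hX, ← mul_assoc, hz.1 X hX, mul_assoc],
    fun u hu => by rw [mul_assoc, hw.2 u hu, ← mul_assoc, hz.2 u hu, mul_assoc]⟩

theorem Cen_one : (1 : Matrix B B ℂ) ∈ Cen D :=
  ⟨fun X _ => by rw [one_mul, mul_one], fun u _ => by rw [one_mul, mul_one]⟩

variable (h : PolH D)

/-- The orthogonal space for the symplectic form. -/
def perp (N : Submodule ℂ (B → ℂ)) : Submodule ℂ (B → ℂ) where
  carrier := {w | ∀ v ∈ N, v ⬝ᵥ (h.O *ᵥ w) = 0}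
  zero_mem' := fun v _ => by rw [mulVec_zero, dotProduct_zero]
  add_mem' := by
    intro a b ha hb v hv
    rw [mulVec_add, dotProduct_add, ha v hv, hb v hv, add_zero]
  smul_mem' := by
    intro r a ha v hv
    rw [mulVec_smul, dotProduct_smul, ha v hv, smul_zero]

theorem form_skew (v w : B → ℂ) : v ⬝ᵥ (h.O *ᵥ w) = -(w ⬝ᵥ (h.O *ᵥ v)) := by
  rw [dotProduct_mulVec, ← mulVec_transpose, O_tr, neg_mulVec, neg_dotProduct, dotProduct_comm]

theorem isCompl_perp {N : Submodule ℂ (B → ℂ)} (h1 : ∀ v ∈ N, D *ᵥ v ∈ N)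
    (h2 : ∀ v ∈ N, (fun i => starRingEnd ℂ (v i)) ∈ N) : IsCompl N (perp h N) := by
  let Bf : LinearMap.BilinForm ℂ (B → ℂ) := LinearMap.mk₂ ℂ (fun v w => v ⬝ᵥ (h.O *ᵥ w))
    (fun X Y Z => by rw [add_dotProduct])
    (fun a X Y => by rw [smul_dotProduct])
    (fun X Y Z => by rw [mulVec_add, dotProduct_add])
    (fun a X Y => by rw [mulVec_smul, dotProduct_smul])
  have hrefl : Bf.IsRefl := by
    intro v w hvw
    change v ⬝ᵥ (h.O *ᵥ w) = 0 at hvw
    change w ⬝ᵥ (h.O *ᵥ v) = 0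
    rw [form_skew, hvw, neg_zero]
  have hperp : Bf.orthogonal N = perp h N := by
    ext w
    constructor
    · intro hw v hv
      exact hw v hv
    · intro hw v hv
      exact hw v hv
  rw [← hperp]
  refine (LinearMap.BilinForm.isCompl_orthogonal_iff_disjoint hrefl).2 ?_
  rw [hperp, Submodule.disjoint_def]
  intro v hv hv'
  by_contra hne
  -- `w = D v̄`
  have h3 : D *ᵥ (fun i => starRingEnd ℂ (v i)) ∈ N := h1 _ (h2 v hv)
  have h4 := hv' _ h3
  apply form_ne_zero h hne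
  rw [form_skew, h4, neg_zero]

theorem perp_lie {N : Submodule ℂ (B → ℂ)} {X : Matrix B B ℂ} (hX : X ∈ lieM D ℂ)
    (hN : ∀ v ∈ N, X *ᵥ v ∈ N) {w : B → ℂ} (hw : w ∈ perp h N) : X *ᵥ w ∈ perp h N := by
  intro v hv
  have h1 : Xᵀ * h.O + h.O * X = 0 := h.lie_sp hX
  rw [mulVec_mulVec, ← neg_eq_of_add_eq_zero_right h1, neg_mulVec, dotProduct_neg,
    ← mulVec_mulVec, dotProduct_mulVec, ← mulVec_transpose, transpose_transpose, hw _ (hN v hv),
    neg_zero]

/-- The adjoint of a rational endomorphism. -/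
def ros (u : Matrix B B ℚ) : Matrix B B ℚ := -(h.Om * uᵀ * h.Om)

theorem ros_comm {u : Matrix B B ℚ} (hu : qc u * D = D * qc u) :
    qc (ros h u) * D = D * qc (ros h u) := by
  have hsp : Dᵀ * h.O + h.O * D = 0 := h.sp
  have h1 : h.O * D = -(Dᵀ * h.O) := (neg_eq_of_add_eq_zero_right hsp).symm
  have h2 : D * h.O = -(h.O * Dᵀ) := by
    have h3 : h.O * (h.O * D) * h.O = -(h.O * (Dᵀ * h.O) * h.O) := by
      rw [h1, mul_neg, neg_mul]
    have h4 : h.O * (h.O * D) * h.O = -(D * h.O) := by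
      rw [← mul_assoc, h.OO, neg_one_mul, neg_mul]
    have h5 : h.O * (Dᵀ * h.O) * h.O = -(h.O * Dᵀ) := by
      rw [mul_assoc, mul_assoc, h.OO, mul_neg, mul_one, mul_neg]
    rw [h4, h5, neg_neg] at h3
    rw [← h3, neg_neg]
  have h3 : (qc u)ᵀ * Dᵀ = Dᵀ * (qc u)ᵀ := by
    rw [← transpose_mul, ← transpose_mul, hu]
  unfold ros
  rw [qc_neg, qc_mul, qc_mul, qc_transpose, ← O_eq, neg_mul, mul_neg, neg_inj]
  calc h.O * (qc u)ᵀ * h.O * D = h.O * (qc u)ᵀ * (h.O * D) := by simp only [mul_assoc]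
    _ = -(h.O * ((qc u)ᵀ * Dᵀ) * h.O) := by rw [h1]; simp only [mul_neg, mul_assoc]
    _ = -(h.O * Dᵀ) * (qc u)ᵀ * h.O := by rw [h3]; simp only [neg_mul, mul_assoc]
    _ = D * (h.O * (qc u)ᵀ * h.O) := by rw [← h2]; simp only [mul_assoc]

theorem ros_adj {u : Matrix B B ℚ} : h.O * qc u = (qc (ros h u))ᵀ * h.O := by
  unfold ros
  rw [qc_neg, qc_mul, qc_mul, qc_transpose, ← O_eq, transpose_neg, transpose_mul, transpose_mul,
    transpose_transpose, O_tr]
  have h1 : -(-h.O * (qc u * -h.O)) * h.O = -(h.O * qc u * (h.O * h.O)) := by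
    noncomm_ring
  rw [h1, h.OO]
  noncomm_ring

theorem perp_end {N : Submodule ℂ (B → ℂ)}
    (hN : ∀ u : Matrix B B ℚ, qc u * D = D * qc u → ∀ v ∈ N, qc u *ᵥ v ∈ N)
    {u : Matrix B B ℚ} (hu : qc u * D = D * qc u) {w : B → ℂ} (hw : w ∈ perp h N) :
    qc u *ᵥ w ∈ perp h N := by
  intro v hv
  rw [mulVec_mulVec, ros_adj, ← mulVec_mulVec, dotProduct_mulVec, ← mulVec_transpose,
    transpose_transpose]
  exact hw _ (hN _ (ros_comm h hu) v hv)

/-- The projector. -/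
theorem exists_proj {N P : Submodule ℂ (B → ℂ)} (hc : IsCompl N P) :
    ∃ e : Matrix B B ℂ, (∀ v ∈ N, e *ᵥ v = v) ∧ (∀ w ∈ P, e *ᵥ w = 0) ∧ ∀ v, e *ᵥ v ∈ N := by
  let L : (B → ℂ) →ₗ[ℂ] (B → ℂ) := N.subtype.comp (Submodule.projectionOnto N P hc)
  have hL : ∀ v, (LinearMap.toMatrix' L) *ᵥ v = L v := fun v => LinearMap.toMatrix'_mulVec L v
  refine ⟨LinearMap.toMatrix' L, fun v hv => ?_, fun w hw => ?_, fun v => ?_⟩
  · rw [hL]
    change ((Submodule.projectionOnto N P hc v : N) : B → ℂ) = v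
    rw [Submodule.projectionOnto_apply_left hc ⟨v, hv⟩]
  · rw [hL]
    change ((Submodule.projectionOnto N P hc w : N) : B → ℂ) = 0
    rw [Submodule.projectionOnto_apply_of_mem_right hc hw]
    rfl
  · rw [hL]
    exact (Submodule.projectionOnto N P hc v).2

theorem proj_comm {N P : Submodule ℂ (B → ℂ)} (hc : IsCompl N P) {e : Matrix B B ℂ}
    (h1 : ∀ v ∈ N, e *ᵥ v = v) (h2 : ∀ w ∈ P, e *ᵥ w = 0) {M : Matrix B B ℂ}
    (hN : ∀ v ∈ N, M *ᵥ v ∈ N) (hP : ∀ w ∈ P, M *ᵥ w ∈ P) : e * M = M * e := by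
  apply ext_mulVec
  intro x
  have hx : x ∈ N ⊔ P := by
    rw [hc.sup_eq_top]
    trivial
  obtain ⟨v, hv, w, hw, rfl⟩ := Submodule.mem_sup.1 hx
  rw [← mulVec_mulVec, ← mulVec_mulVec, mulVec_add, mulVec_add, mulVec_add, h1 v hv, h2 w hw,
    h1 _ (hN v hv), h2 _ (hP w hw), add_zero, add_zero]

end

end Pool.Agent.R913.Ind
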