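import Mathlib
import Pool.Agent.R913.Ind.Proj

/-!
# The components of the Hodge operator in commuting ideals
-/

set_option autoImplicit false
set_option linter.unusedSectionVars false

namespace Pool.Agent.R913.Ind

open scoped ComplexOrder
open Matrix Module Pool.Agent.H204R3.SP Pool.Agent.H204R3.CM Pool.Agent.W437.HC
  Pool.Agent.W437.HD Pool.Agent.W437.HP Pool.Agent.W437.HR Pool.Agent.W548.Odd
  Pool.Agent.TH131.GHC

noncomputable section

variable {B : Type*} [Fintype B] [DecidableEq B] {D : Matrix B B ℂ}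
variable (h : PolH D) {k k' : Submodule ℂ (Matrix B B ℂ)}

include h in
/-- A component of the Hodge operator is, up to central elements, a central multiple of it. -/
theorem exists_cut (hk : GalD D k) (hk' : GalD D k') (hcomm : ∀ X ∈ k, ∀ Y ∈ k', X * Y = Y * X)
    (hsum : ∀ Y ∈ lieM D ℂ, ∃ Y1 ∈ k, Y - Y1 ∈ k') {D1 : Matrix B B ℂ} (hD1 : D1 ∈ k)
    (hD2 : D - D1 ∈ k') : ∃ c ∈ Cen D, ∃ z ∈ Cen D, D1 = c * D + z := by
  have hc : IsCompl (N1 D k) (perp h (N1 D k)) :=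
    isCompl_perp h (fun v hv => N1_D h hv) (fun v hv => N1_conj h hk hv)
  obtain ⟨e, he1, he2, he3⟩ := exists_proj hc
  have hN : ∀ X ∈ lieM D ℂ, ∀ v ∈ N1 D k, X *ᵥ v ∈ N1 D k := by
    intro X hX v hv
    obtain ⟨X1, hX1, hX2⟩ := hsum X hX
    have h1 : X *ᵥ v = X1 *ᵥ v + (X - X1) *ᵥ v := by
      rw [← add_mulVec, add_sub_cancel]
    rw [h1]
    exact Submodule.add_mem _ (N1_k h hk hv hX1) (N1_k' h hk hcomm hv hX2)
  have heL : ∀ X ∈ lieM D ℂ, e * X = X * e := fun X hX =>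
    proj_comm hc he1 he2 (hN X hX) (fun w hw => perp_lie h hX (hN X hX) hw)
  have heU : ∀ u : Matrix B B ℚ, qc u * D = D * qc u → e * qc u = qc u * e := fun u hu =>
    proj_comm hc he1 he2 (fun v hv => N1_end h hk hv hu)
      (fun w hw => perp_end h (fun u hu v hv => N1_end h hk hv hu) hu hw)
  have heC : e ∈ Cen D := ⟨heL, heU⟩
  have hcC : 1 - e ∈ Cen D := Submodule.sub_mem _ Cen_one heC
  -- the complement
  have hq : ∀ v, (1 - e) *ᵥ v ∈ perp h (N1 D k) := by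
    intro v
    have hx : v ∈ N1 D k ⊔ perp h (N1 D k) := by
      rw [hc.sup_eq_top]
      trivial
    obtain ⟨n, hn, p, hp, rfl⟩ := Submodule.mem_sup.1 hx
    rw [sub_mulVec, one_mulVec, mulVec_add, he1 n hn, he2 p hp, add_zero, add_sub_cancel_left]
    exact hp
  have k1 : ∀ X ∈ k, (D * X - X * D) * e = 0 := by
    intro X hX
    apply ext_mulVec
    intro v
    rw [← mulVec_mulVec, zero_mulVec]
    exact N1_comm h hk (he3 v) hX
  have k2 : ∀ Y ∈ k', (D * Y - Y * D) * (1 - e) = 0 := by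
    intro Y hY
    apply ext_mulVec
    intro v
    rw [← mulVec_mulVec, zero_mulVec]
    obtain ⟨w, hw⟩ : ∃ w, w = (1 - e) *ᵥ v := ⟨_, rfl⟩
    rw [← hw]
    have hwP : w ∈ perp h (N1 D k) := by rw [hw]; exact hq v
    have hup : up D Y ∈ k' := up_mem h hk' hY
    have hdn : dn D Y ∈ k' := dn_mem h hk' hY
    have z1 : up D Y *ᵥ w = 0 := by
      have h1 : up D Y *ᵥ w ∈ N1 D k := by
        intro X hX
        rw [mulVec_mulVec, mulVec_mulVec, (prod_zero h hk hk' hcomm hX hY).1.1,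
          (prod_zero h hk hk' hcomm hX hY).1.2, zero_mulVec]
        exact ⟨rfl, rfl⟩
      have h2 : up D Y *ᵥ w ∈ perp h (N1 D k) :=
        perp_lie h (hk'.le hup) (hN _ (hk'.le hup)) hwP
      exact Submodule.disjoint_def.1 hc.disjoint _ h1 h2
    have z2 : dn D Y *ᵥ w = 0 := by
      have h1 : dn D Y *ᵥ w ∈ N1 D k := by
        intro X hX
        rw [mulVec_mulVec, mulVec_mulVec, (prod_zero h hk hk' hcomm hX hY).2.1,
          (prod_zero h hk hk' hcomm hX hY).2.2, zero_mulVec]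
        exact ⟨rfl, rfl⟩
      have h2 : dn D Y *ᵥ w ∈ perp h (N1 D k) :=
        perp_lie h (hk'.le hdn) (hN _ (hk'.le hdn)) hwP
      exact Submodule.disjoint_def.1 hc.disjoint _ h1 h2
    have h3 := congrArg (fun M => M *ᵥ w) (up_sub_dn h.dd Y)
    simp only [sub_mulVec, smul_mulVec] at h3
    rw [z1, z2, sub_zero] at h3
    rw [sub_mulVec]
    exact (smul_eq_zero.1 h3.symm).resolve_left two_ne_zero
  obtain ⟨D2, hD2'⟩ : ∃ D2, D2 = D - D1 := ⟨_, rfl⟩
  rw [← hD2'] at hD2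
  have hDD : D = D1 + D2 := by rw [hD2', add_sub_cancel]
  refine ⟨1 - e, hcC, e * D1 - (1 - e) * D2, ⟨?_, ?_⟩, ?_⟩
  · intro X hX
    obtain ⟨X1, hX1, hX2⟩ := hsum X hX
    obtain ⟨Y, hYdef⟩ : ∃ Y, Y = X - X1 := ⟨_, rfl⟩
    rw [← hYdef] at hX2
    have hXX : X = X1 + Y := by rw [hYdef, add_sub_cancel]
    -- the part in `k`
    have a1 : e * D1 * X1 = X1 * (e * D1) := by
      have h1 : D1 * X1 - X1 * D1 = D * X1 - X1 * D := by
        rw [hDD, add_mul, mul_add, hcomm X1 hX1 D2 hD2]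
        abel
      have h2 : e * (D1 * X1 - X1 * D1) = 0 := by
        rw [heL _ (lieM_bracket D (hk.le hD1) (hk.le hX1)), h1, k1 X1 hX1]
      rw [mul_sub, sub_eq_zero] at h2
      rw [mul_assoc, h2, ← mul_assoc, heL X1 (hk.le hX1), mul_assoc]
    have a2 : (1 - e) * D2 * X1 = X1 * ((1 - e) * D2) := by
      rw [mul_assoc, ← hcomm X1 hX1 D2 hD2, ← mul_assoc, hcC.1 X1 (hk.le hX1), mul_assoc]
    have a3 : e * D1 * Y = Y * (e * D1) := by
      rw [mul_assoc, hcomm D1 hD1 Y hX2, ← mul_assoc, heL Y (hk'.le hX2), mul_assoc]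
    have a4 : (1 - e) * D2 * Y = Y * ((1 - e) * D2) := by
      have h1 : D2 * Y - Y * D2 = D * Y - Y * D := by
        rw [hDD, add_mul, mul_add, hcomm D1 hD1 Y hX2]
        abel
      have h2 : (1 - e) * (D2 * Y - Y * D2) = 0 := by
        rw [hcC.1 _ (lieM_bracket D (hk'.le hD2) (hk'.le hX2)), h1, k2 Y hX2]
      rw [mul_sub, sub_eq_zero] at h2
      rw [mul_assoc, h2, ← mul_assoc, hcC.1 Y (hk'.le hX2), mul_assoc]
    rw [hXX, sub_mul, mul_sub, mul_add, mul_add, add_mul, add_mul, a1, a2, a3, a4]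
  · intro u hu
    have b1 := comm_lie h hu (hk.le hD1)
    have b2 := comm_lie h hu (hk'.le hD2)
    rw [sub_mul, mul_sub]
    congr 1
    · rw [mul_assoc, ← b1, ← mul_assoc, heU u hu, mul_assoc]
    · rw [mul_assoc, ← b2, ← mul_assoc, hcC.2 u hu, mul_assoc]
  · conv_rhs => rw [hDD]
    noncomm_ring

end

end Pool.Agent.R913.Ind
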