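import Mathlib
import Pool.Agent.R913.Ind.Cut

/-!
# Traces of central elements
-/

set_option autoImplicit false
set_option linter.unusedSectionVars false

namespace Pool.Agent.R913.Ind

open scoped ComplexOrder
open Matrix Module Pool.Agent.H204R3.SP Pool.Agent.H204R3.CM Pool.Agent.W437.HC
  Pool.Agent.W437.HD Pool.Agent.W437.HP Pool.Agent.W437.HR Pool.Agent.W548.Odd
  Pool.Agent.TH131.GHC

noncomputable section

variable {B : Type*} [Fintype B] [DecidableEq B] {D : Matrix B B ℂ}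
variable (h : PolH D) {k : Submodule ℂ (Matrix B B ℂ)}

theorem adj_Cen {z : Matrix B B ℂ} (hz : z ∈ Cen D) : adj h z ∈ Cen D := by
  constructor
  · intro X hX
    have h1 : Xᵀ * h.O = -(h.O * X) := by
      have h2 : Xᵀ * h.O + h.O * X = 0 := h.lie_sp hX
      exact eq_neg_of_add_eq_zero_left h2
    have h3 : h.O * Xᵀ = -(X * h.O) := h.lie_sp' hX
    have h4 : cj z * X = X * cj z := by
      have h5 : cj X ∈ lieM D ℂ := map_mem_aut hX (starRingEnd ℂ)
      have h6 := congrArg cj (hz.1 _ h5)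
      rw [cj_mul, cj_mul, cj_cj] at h6
      exact h6
    have h5 : (cj z)ᵀ * Xᵀ = Xᵀ * (cj z)ᵀ := by
      rw [← transpose_mul, ← transpose_mul, h4]
    unfold adj
    rw [neg_mul, mul_neg, neg_inj]
    have h6 : h.O * X = -(Xᵀ * h.O) := by rw [h1, neg_neg]
    calc h.O * (cj z)ᵀ * h.O * X = h.O * (cj z)ᵀ * (h.O * X) := by simp only [mul_assoc]
      _ = -(h.O * ((cj z)ᵀ * Xᵀ) * h.O) := by rw [h6]; simp only [mul_neg, mul_assoc]
      _ = -(h.O * Xᵀ) * (cj z)ᵀ * h.O := by rw [h5]; simp only [neg_mul, mul_assoc]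
      _ = X * (h.O * (cj z)ᵀ * h.O) := by rw [h3, neg_neg]; simp only [mul_assoc]
  · intro u hu
    have h1 := ros_adj h (u := u)
    have h2 : h.O * (qc (ros h u))ᵀ = qc u * h.O := by
      have h3 : h.O * (h.O * qc u) * h.O = h.O * ((qc (ros h u))ᵀ * h.O) * h.O := by rw [h1]
      have h4 : h.O * (h.O * qc u) * h.O = -(qc u * h.O) := by
        rw [← mul_assoc, h.OO, neg_one_mul, neg_mul]
      have h5 : h.O * ((qc (ros h u))ᵀ * h.O) * h.O = -(h.O * (qc (ros h u))ᵀ) := by
        rw [mul_assoc, mul_assoc, h.OO, mul_neg, mul_one, mul_neg]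
      rw [h4, h5, neg_inj] at h3
      exact h3.symm
    have h4 : cj z * qc (ros h u) = qc (ros h u) * cj z := by
      have h6 := congrArg cj (hz.2 _ (ros_comm h hu))
      rw [cj_mul, cj_mul] at h6
      have h7 : cj (qc (ros h u)) = qc (ros h u) := qc_aut _ _
      rw [h7] at h6
      exact h6
    have h5 : (cj z)ᵀ * (qc (ros h u))ᵀ = (qc (ros h u))ᵀ * (cj z)ᵀ := by
      rw [← transpose_mul, ← transpose_mul, h4]
    unfold adj
    rw [neg_mul, mul_neg, neg_inj]
    calc h.O * (cj z)ᵀ * h.O * qc u = h.O * (cj z)ᵀ * (h.O * qc u) := by simp only [mul_assoc]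
      _ = h.O * ((cj z)ᵀ * (qc (ros h u))ᵀ) * h.O := by rw [h1]; simp only [mul_assoc]
      _ = (h.O * (qc (ros h u))ᵀ) * (cj z)ᵀ * h.O := by rw [h5]; simp only [mul_assoc]
      _ = qc u * (h.O * (cj z)ᵀ * h.O) := by rw [h2]; simp only [mul_assoc]

theorem galD_lie (D : Matrix B B ℂ) : GalD D (lieM D ℂ) where
  le := le_rfl
  gal := fun σ X hX => map_mem_aut hX (σ : ℂ →+* ℂ)
  dn := fun X hX => lieM_bracket D (D_mem D) hX

include h in
/-- The projection of a matrix to the Hodge Lie algebra. -/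
theorem exists_projL (w : Matrix B B ℂ) : ∃ w1 ∈ lieM D ℂ, ∀ X ∈ lieM D ℂ,
    trace (X * (w - w1)) = 0 := by
  have hrefl : (trC B).IsRefl := by
    intro X Y h
    change trace (X * Y) = 0 at h
    change trace (Y * X) = 0
    rw [trace_mul_comm]
    exact h
  have hdisj : Disjoint (lieM D ℂ) ((trC B).orthogonal (lieM D ℂ)) := by
    rw [Submodule.disjoint_def]
    intro X hX hX'
    refine h.nd (galD_lie D) hX fun Y hY => ?_
    have h1 := hX' Y hY
    change trace (Y * X) = 0 at h1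
    rw [trace_mul_comm] at h1
    exact h1
  have hc : IsCompl (lieM D ℂ) ((trC B).orthogonal (lieM D ℂ)) :=
    (LinearMap.BilinForm.isCompl_orthogonal_iff_disjoint hrefl).2 hdisj
  have h1 : w ∈ lieM D ℂ ⊔ (trC B).orthogonal (lieM D ℂ) := by
    rw [hc.sup_eq_top]
    trivial
  obtain ⟨Y1, hY1, Y2, hY2, hY12⟩ := Submodule.mem_sup.1 h1
  refine ⟨Y1, hY1, fun X hX => ?_⟩
  have h2 : w - Y1 = Y2 := by
    rw [← hY12, add_sub_cancel_left]
  rw [h2]
  exact hY2 X hX

include h in
/-- If central elements have trace zero with the Hodge operator, then so they have with the component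
in an ideal. -/
theorem trace_comp (hk : GalD D k) (hb : ∀ w ∈ Cen D, trace (w * D) = 0) {D1 : Matrix B B ℂ}
    (hD1 : D1 ∈ k) (hD2 : D - D1 ∈ cmpl D k) {w : Matrix B B ℂ} (hw : w ∈ Cen D) :
    trace (D1 * w) = 0 := by
  obtain ⟨wL, hwL, hort⟩ := exists_projL h w
  -- `wL` is central in the Lie algebra
  have hcen : ∀ Y ∈ lieM D ℂ, Y * wL - wL * Y = 0 := by
    intro Y hY
    refine h.nd (galD_lie D) (lieM_bracket D hY hwL) fun X hX => ?_
    rw [trace_mul_comm]
    have h1 : trace (X * (Y * wL - wL * Y)) = trace ((X * Y - Y * X) * wL) := by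
      have e1 : trace (X * wL * Y) = trace (Y * X * wL) := by
        rw [trace_mul_comm, mul_assoc]
      simp only [mul_sub, sub_mul, trace_sub, ← mul_assoc, e1]
    have h2 : trace ((X * Y - Y * X) * w) = 0 := by
      have e1 : trace (Y * X * w) = trace (X * Y * w) := by
        rw [mul_assoc, ← hw.1 X hX, ← mul_assoc, trace_mul_comm, ← mul_assoc]
      rw [sub_mul, trace_sub, e1, sub_self]
    have h3 := hort _ (lieM_bracket D hX hY)
    rw [mul_sub, trace_sub, h2, zero_sub, neg_eq_zero] at h3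
    rw [h1, h3]
  obtain ⟨w1, hw1, hw2⟩ := h.cmpl_sum hk hwL
  have hw1L : w1 ∈ lieM D ℂ := hk.le hw1
  have hw1c : ∀ Y ∈ lieM D ℂ, w1 * Y - Y * w1 = 0 := by
    intro Y hY
    refine h.cmpl_disj hk (h.ideal hk hw1 hY) ?_
    have h1 := (cmpl D k).neg_mem (h.cmpl_ideal hk hw2 hY)
    have h2 : -((wL - w1) * Y - Y * (wL - w1)) = (w1 * Y - Y * w1) + (Y * wL - wL * Y) := by
      noncomm_ring
    rw [h2, hcen Y hY, add_zero] at h1
    exact h1
  have hw1C : w1 ∈ Cen D := ⟨fun X hX => sub_eq_zero.1 (hw1c X hX),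
    fun u hu => (comm_lie h hu hw1L).symm⟩
  have t1 : trace (D1 * w) = trace (D1 * wL) := by
    have h1 := hort _ (hk.le hD1)
    rw [mul_sub, trace_sub, sub_eq_zero] at h1
    exact h1
  have t2 : trace (D1 * wL) = trace (D1 * w1) := by
    have h1 := hw2.2 _ hD1
    rw [mul_sub, trace_sub, sub_eq_zero] at h1
    exact h1
  have t3 : trace (D1 * w1) = 0 := by
    have h1 := hD2.2 _ hw1
    rw [mul_sub, trace_sub, hb w1 hw1C, zero_sub, neg_eq_zero, trace_mul_comm] at h1
    exact h1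
  rw [t1, t2, t3]

include h in
/-- Under the condition on the traces a component of the Hodge operator is a central multiple of
it. -/
theorem exists_cut' (hk : GalD D k) (hb : ∀ w ∈ Cen D, trace (w * D) = 0) {D1 : Matrix B B ℂ}
    (hD1 : D1 ∈ k) (hD2 : D - D1 ∈ cmpl D k) : ∃ c ∈ Cen D, D1 = c * D := by
  obtain ⟨c, hc, z, hz, hDz⟩ := exists_cut h hk (h.cmpl_galD hk)
    (fun X hX Y hY => sub_eq_zero.1 (h.cmpl_bracket hk hX hY))
    (fun Y hY => h.cmpl_sum hk hY) hD1 hD2
  have hz0 : z = 0 := by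
    refine eq_zero_of_trace h (hz.1 D (D_mem D)) ?_
    have hA := adj_Cen h hz
    have h1 : z = D1 - c * D := by rw [hDz, add_sub_cancel_left]
    have h2 : trace (z * adj h z) = trace (D1 * adj h z) - trace (c * D * adj h z) := by
      rw [← trace_sub, ← sub_mul, ← h1]
    rw [h2, trace_comp h hk hb hD1 hD2 hA, mul_assoc, ← hA.1 D (D_mem D), ← mul_assoc,
      hb _ (Cen_mul hc hA), sub_zero]
  refine ⟨c, hc, ?_⟩
  rw [hDz, hz0, add_zero]

end

end Pool.Agent.R913.Ind
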