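import Mathlib
import Pool.Agent.R913.Ind.Tr

/-!
# Independence of Hodge structures from fields of definition
-/

set_option autoImplicit false
set_option linter.unusedSectionVars false

namespace Pool.Agent.R913.Ind

open scoped ComplexOrder
open Matrix Module Pool.Agent.H204R3.SP Pool.Agent.H204R3.CM Pool.Agent.W437.HC
  Pool.Agent.W437.HD Pool.Agent.W437.HP Pool.Agent.W437.HR Pool.Agent.W548.Odd
  Pool.Agent.TH131.GHC

noncomputable section

section cen

variable {B : Type*} [Fintype B] [DecidableEq B] {D : Matrix B B ℂ}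

/-- The rational matrix `c` is in the centre of the algebra of the rational endomorphisms. -/
def Central (D : Matrix B B ℂ) (c : Matrix B B ℚ) : Prop :=
  qc c * D = D * qc c ∧ ∀ u : Matrix B B ℚ, qc u * D = D * qc u → c * u = u * c

/-- The complexification of the centre. -/
def CenSpan (D : Matrix B B ℂ) : Submodule ℂ (Matrix B B ℂ) :=
  Submodule.span ℂ {X | ∃ c : Matrix B B ℚ, Central D c ∧ X = qc c}

theorem Cen_gal (σ : ℂ ≃+* ℂ) {X : Matrix B B ℂ} (hX : X ∈ Cen D) : X.map σ ∈ Cen D := by
  refine ⟨fun Y hY => ?_, fun u hu => ?_⟩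
  · have h1 : Y.map σ.symm ∈ lieM D ℂ := map_mem_aut hY (σ.symm : ℂ →+* ℂ)
    have h2 := congrArg (fun M => M.map σ) (hX.1 _ h1)
    have h3 : (X * Y.map σ.symm).map σ = X.map σ * Y := by
      have e1 : (X * Y.map σ.symm).map σ = X.map σ * (Y.map σ.symm).map σ :=
        Matrix.map_mul (f := (σ : ℂ →+* ℂ))
      rw [e1]
      congr 1
      ext i j
      simp
    have h4 : (Y.map σ.symm * X).map σ = Y * X.map σ := by
      have e1 : (Y.map σ.symm * X).map σ = (Y.map σ.symm).map σ * X.map σ :=
        Matrix.map_mul (f := (σ : ℂ →+* ℂ))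
      rw [e1]
      congr 1
      ext i j
      simp
    rw [← h3, ← h4]
    exact h2
  · have h2 := congrArg (fun M => M.map σ) (hX.2 _ hu)
    have h3 : (X * qc u).map σ = X.map σ * qc u := by
      have e1 : (X * qc u).map σ = X.map σ * (qc u).map σ :=
        Matrix.map_mul (f := (σ : ℂ →+* ℂ))
      rw [e1, show (qc u).map σ = qc u from qc_aut u (σ : ℂ →+* ℂ)]
    have h4 : (qc u * X).map σ = qc u * X.map σ := by
      have e1 : (qc u * X).map σ = (qc u).map σ * X.map σ :=
        Matrix.map_mul (f := (σ : ℂ →+* ℂ))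
      rw [e1, show (qc u).map σ = qc u from qc_aut u (σ : ℂ →+* ℂ)]
    rw [← h3, ← h4]
    exact h2

/-- The matrices commuting with the Hodge Lie algebra and the endomorphisms are in the
complexification of the centre. -/
theorem Cen_le : Cen D ≤ CenSpan D := by
  intro X hX
  refine rational_induction (Cen D) (fun σ X hX => Cen_gal σ hX)
    (p := fun X => X ∈ CenSpan D) ?_ (Submodule.zero_mem _)
    (fun X Y hX hY => Submodule.add_mem _ hX hY)
    (fun c X hX => Submodule.smul_mem _ c hX) X hX
  intro u hu
  refine Submodule.subset_span ⟨u, ⟨hu.1 D (D_mem D), fun v hv => ?_⟩, rfl⟩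
  have h1 := hu.2 v hv
  apply qc_inj
  rw [qc_mul, qc_mul]
  exact h1

/-- The condition on the traces. -/
theorem trace_Cen (hb : ∀ c : Matrix B B ℚ, Central D c → trace (qc c * D) = 0) :
    ∀ w ∈ Cen D, trace (w * D) = 0 := by
  have key : ∀ w ∈ CenSpan D, trace (w * D) = 0 := by
    intro w hw
    unfold CenSpan at hw
    induction hw using Submodule.span_induction with
    | mem x hx =>
      obtain ⟨c, hc, rfl⟩ := hx
      exact hb c hc
    | zero => rw [zero_mul, trace_zero]
    | add x y _ _ hx hy => rw [add_mul, trace_add, hx, hy, add_zero]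
    | smul a x _ hx => rw [smul_mul_assoc, trace_smul, hx, smul_zero]
  exact fun w hw => key w (Cen_le hw)

end cen

section functional

variable {X : Type*} [Fintype X] [DecidableEq X]

/-- Rational linear maps preserve the complexification of a rational subspace. -/
theorem cxX_map {V : Submodule ℚ (X → ℚ)} (f : ℂ →ₗ[ℚ] ℂ) {z : X → ℂ} (hz : z ∈ cxX V) :
    (fun x => f (z x)) ∈ cxX V := by
  have key : ∀ a : ℂ, (fun x => f (a * z x)) ∈ cxX V := by
    unfold cxX at hz
    induction hz using Submodule.span_induction with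
    | mem z hz =>
      obtain ⟨t, ht, rfl⟩ := hz
      intro a
      have h1 : (fun x => f (a * cstX t x)) = f a • cstX t := by
        funext x
        have h2 : a * cstX t x = t x • a := by
          rw [Rat.smul_def, mul_comm]
          rfl
        rw [h2, map_smul, Rat.smul_def, Pi.smul_apply, smul_eq_mul, mul_comm]
        rfl
      rw [h1]
      exact Submodule.smul_mem _ _ (cstX_mem ht)
    | zero =>
      intro a
      have h1 : (fun x => f (a * (0 : X → ℂ) x)) = 0 := by
        funext x
        simp
      rw [h1]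
      exact Submodule.zero_mem _
    | add x y _ _ hx hy =>
      intro a
      have h1 : (fun i => f (a * (x + y) i)) = (fun i => f (a * x i)) + fun i => f (a * y i) := by
        funext i
        simp [mul_add]
      rw [h1]
      exact Submodule.add_mem _ (hx a) (hy a)
    | smul c y _ hy =>
      intro a
      have h1 : (fun i => f (a * (c • y) i)) = fun i => f ((a * c) * y i) := by
        funext i
        simp [mul_assoc]
      rw [h1]
      exact hy _
  have h1 := key 1
  simpa using h1

/-- A number outside a rational subspace is detected by a rational linear map. -/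
theorem exists_fn {W : Submodule ℚ ℂ} {x : ℂ} (hx : x ∉ W) :
    ∃ f : ℂ →ₗ[ℚ] ℂ, (∀ y ∈ W, f y = 0) ∧ f x ≠ 0 := by
  obtain ⟨f, hf, hW⟩ := Submodule.exists_le_ker_of_notMem hx
  refine ⟨(Algebra.linearMap ℚ ℂ).comp f, fun y hy => ?_, fun h0 => hf ?_⟩
  · rw [LinearMap.comp_apply, LinearMap.mem_ker.1 (hW hy), map_zero]
  · rw [LinearMap.comp_apply, Algebra.linearMap_apply] at h0
    exact (map_eq_zero (algebraMap ℚ ℂ)).1 h0

end functional

section main

variable {B : Type*} [Fintype B] [DecidableEq B] {C : Type*} [Fintype C] [DecidableEq C]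
  {κ : Type*} [Fintype κ] [DecidableEq κ] {D : Matrix B B ℂ} {D' : Matrix C C ℂ}

/-- The image of the Hodge operator under a rational linear map which vanishes on the entries of the
second operator. -/
theorem map_stb {V : Submodule ℚ ((κ → B) × C → ℚ)}
    (hV : ∀ z ∈ cxX V, opD κ C D z + opW κ B D' z ∈ cxX V) {W : Submodule ℚ ℂ}
    (hW : ∀ i j, D' i j ∈ W) (f : ℂ →ₗ[ℚ] ℂ) (hf : ∀ y ∈ W, f y = 0) : D.map f ∈ stb D V := by
  refine ⟨map_mem_of_aut (lieM D ℂ) (fun σ X hX => map_mem_aut hX (σ : ℂ →+* ℂ)) (D_mem D) f,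
    ?_⟩
  intro z hz
  unfold cxX at hz
  induction hz using Submodule.span_induction with
  | mem z hz =>
    obtain ⟨t, ht, rfl⟩ := hz
    have h1 := cxX_map f (hV _ (cstX_mem ht))
    have h0 : ∀ (a : ℂ) (r : ℚ), f (a * (r : ℂ)) = f a * (r : ℂ) := by
      intro a r
      have h2 : a * (r : ℂ) = r • a := by rw [Rat.smul_def, mul_comm]
      rw [h2, map_smul, Rat.smul_def, mul_comm]
    have h2 : (fun p => f ((opD κ C D (cstX t) + opW κ B D' (cstX t)) p)) =
        opD κ C (D.map f) (cstX t) := by
      funext p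
      rw [Pi.add_apply, map_add]
      have h4 : f (opW κ B D' (cstX t) p) = 0 := by
        rw [opW_apply, map_sum]
        refine Finset.sum_eq_zero fun c _ => ?_
        change f (D' p.2 c * (t (p.1, c) : ℂ)) = 0
        rw [h0, hf _ (hW _ _), zero_mul]
      rw [h4, add_zero]
      change f (act D (sl p.2 (cstX t)) p.1) = act (D.map f) (sl p.2 (cstX t)) p.1
      simp only [act, map_sum, Matrix.map_apply, sl_apply]
      refine Finset.sum_congr rfl fun k _ => Finset.sum_congr rfl fun b _ => ?_
      exact h0 _ _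
    rwa [h2] at h1
  | zero =>
    rw [map_zero]
    exact Submodule.zero_mem _
  | add x y _ _ hx hy =>
    rw [map_add]
    exact Submodule.add_mem _ hx hy
  | smul a y _ hy =>
    rw [map_smul]
    exact Submodule.smul_mem _ _ hy

variable (h : PolH D)

include h in
/-- The central element which cuts out an ideal component of the Hodge operator is idempotent. -/
theorem cut_idem {k : Submodule ℂ (Matrix B B ℂ)} (hk : GalD D k)
    (hb : ∀ w ∈ Cen D, trace (w * D) = 0) {c : Matrix B B ℂ} (hc : c ∈ Cen D)
    (hD1 : c * D ∈ k) (hD2 : D - c * D ∈ cmpl D k) : c * c = c := by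
  have hw : c * (1 - c) ∈ Cen D := Cen_mul hc (Submodule.sub_mem _ Cen_one hc)
  have hcD : c * D = D * c := hc.1 D (D_mem D)
  have hD2' : (1 - c) * D = D - c * D := by rw [sub_mul, one_mul]
  have hcc : c * (1 - c) = (1 - c) * c := by noncomm_ring
  -- `w D` is central
  have hwD : c * (1 - c) * D ∈ Cen D := by
    refine ⟨fun X hX => ?_, fun u hu => ?_⟩
    · obtain ⟨X1, hX1, hX2⟩ := h.cmpl_sum hk hX
      have hX1L : X1 ∈ lieM D ℂ := hk.le hX1
      have b1 : c * D * (X - X1) = (X - X1) * (c * D) :=
        sub_eq_zero.1 (h.cmpl_bracket hk hD1 hX2)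
      have b2 : X1 * (D - c * D) = (D - c * D) * X1 :=
        sub_eq_zero.1 (h.cmpl_bracket hk hX1 hD2)
      have c1 : c * X1 = X1 * c := hc.1 _ hX1L
      have c2 : (1 - c) * (X - X1) = (X - X1) * (1 - c) := by
        have h3 : c * (X - X1) = (X - X1) * c := hc.1 _ (Submodule.sub_mem _ hX hX1L)
        rw [sub_mul 1 c, mul_sub _ 1 c, h3, one_mul, mul_one]
      have e1 : c * (1 - c) * D * X1 = X1 * (c * (1 - c) * D) := by
        calc c * (1 - c) * D * X1 = c * ((D - c * D) * X1) := by rw [← hD2']; noncomm_ring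
          _ = c * X1 * (D - c * D) := by rw [← b2, mul_assoc]
          _ = X1 * (c * (1 - c) * D) := by rw [c1, ← hD2']; noncomm_ring
      have e2 : c * (1 - c) * D * (X - X1) = (X - X1) * (c * (1 - c) * D) := by
        calc c * (1 - c) * D * (X - X1) = (1 - c) * (c * D * (X - X1)) := by
              rw [hcc]; simp only [mul_assoc]
          _ = (1 - c) * (X - X1) * (c * D) := by rw [b1, ← mul_assoc]
          _ = (X - X1) * (c * (1 - c) * D) := by rw [c2, hcc]; simp only [mul_assoc]
      have e3 : X = X1 + (X - X1) := by abel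
      rw [e3, mul_add, add_mul, e1, e2]
    · rw [mul_assoc, ← hu, ← mul_assoc, hw.2 u hu, mul_assoc]
  have hA := adj_Cen h hw
  have h1 := hb _ (Cen_mul hwD hA)
  have h2 : c * (1 - c) * D * adj h (c * (1 - c)) * D = c * (1 - c) * adj h (c * (1 - c)) := by
    have h3 : adj h (c * (1 - c)) * D = D * adj h (c * (1 - c)) := hA.1 D (D_mem D)
    rw [mul_assoc, h3, ← mul_assoc, mul_assoc _ D D, h.dd, mul_one]
  rw [h2] at h1
  have h3 := eq_zero_of_trace h (hw.1 D (D_mem D)) h1
  rw [mul_sub, mul_one, sub_eq_zero] at h3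
  exact h3.symm

/-- The rational space spanned by the entries of a matrix. -/
def entrySpan {C : Type*} (M : Matrix C C ℂ) : Submodule ℚ ℂ :=
  Submodule.span ℚ {x | ∃ i j, x = M i j}

/-- The matrix `X` is a *common part* of the Hodge operator `D` of an abelian variety and the
rational space `W` of complex numbers: the entries of `X` are in `W` and are rational combinations of
the entries of `D`, `X = c * D + z` with `c`, `z` in the complexification of the centre of the
endomorphism algebra (with `z = 0` and `c` idempotent if the trace of `c * D` is zero for all `c` in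
the centre), and `X` commutes with all conjugates of `D - X`. -/
structure IsCommonPart (D : Matrix B B ℂ) (W : Submodule ℚ ℂ) (X : Matrix B B ℂ) : Prop where
  entries : ∀ i j, X i j ∈ entrySpan D ∧ X i j ∈ W
  form : ∃ c ∈ CenSpan D, ∃ z ∈ CenSpan D, X = c * D + z
  idem : (∀ c : Matrix B B ℚ, Central D c → trace (qc c * D) = 0) →
    ∃ e ∈ CenSpan D, e * e = e ∧ X = e * D
  comm : ∀ σ : ℂ ≃+* ℂ, X * (D - X).map σ = (D - X).map σ * X

include h in
/-- **Independence from fields of definition**: let `D` be the Hodge operator of an abelian variety and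
`D'` an operator with entries in the rational space `W`. If `D` and `W` have no common part, then `D`
and `D'` are independent. -/
theorem indep {W : Submodule ℚ ℂ} (hW : ∀ i j, D' i j ∈ W)
    (ha : ∀ X, IsCommonPart D W X → X = 0) : Indep D D' := by
  intro n S hS
  have hS' : ∀ z ∈ cxX S, opD (Fin n) C D z + opW (Fin n) B D' z ∈ cxX S := hS
  have hk : GalD D (stb D S) := stb_galD hS'
  have hc' := h.cmpl_galD hk
  obtain ⟨D1, hD1, hD2⟩ := h.cmpl_sum hk (D_mem D)
  have hmap : ∀ f : ℂ →ₗ[ℚ] ℂ, D.map f ∈ stb D S → (D - D1).map f = 0 := by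
    intro f h1
    have h2 : D1.map f ∈ stb D S := map_mem_of_aut _ (fun σ X hX => hk.gal σ X hX) hD1 f
    have h3 : (D - D1).map f = D.map f - D1.map f := Matrix.map_sub _ (map_sub f) _ _
    have h4 : (D - D1).map f ∈ stb D S := by
      rw [h3]
      exact Submodule.sub_mem _ h1 h2
    have h5 : (D - D1).map f ∈ cmpl D (stb D S) :=
      map_mem_of_aut _ (fun σ X hX => hc'.gal σ X hX) hD2 f
    exact h.cmpl_disj hk h4 h5
  have hent : ∀ i j, (D - D1) i j ∈ entrySpan D ∧ (D - D1) i j ∈ W := by
    intro i j
    constructor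
    · by_contra hcon
      obtain ⟨f, hf, hne⟩ := exists_fn hcon
      apply hne
      have h1 : D.map f = 0 := by
        ext a b
        exact hf _ (Submodule.subset_span ⟨a, b, rfl⟩)
      have h2 := hmap f (by rw [h1]; exact Submodule.zero_mem _)
      have h7 := congrFun (congrFun h2 i) j
      rw [Matrix.map_apply] at h7
      exact h7
    · by_contra hcon
      obtain ⟨f, hf, hne⟩ := exists_fn hcon
      apply hne
      have h2 := hmap f (map_stb hS' hW f hf)
      have h7 := congrFun (congrFun h2 i) j
      rw [Matrix.map_apply] at h7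
      exact h7
  have h0 := ha (D - D1) {
    entries := hent
    form := by
      obtain ⟨c, hc, z, hz, hcz⟩ := exists_cut h hk hc'
        (fun X hX Y hY => sub_eq_zero.1 (h.cmpl_bracket hk hX hY))
        (fun Y hY => h.cmpl_sum hk hY) hD1 hD2
      refine ⟨1 - c, Cen_le (Submodule.sub_mem _ Cen_one hc), -z,
        Cen_le (Submodule.neg_mem _ hz), ?_⟩
      rw [hcz]
      noncomm_ring
    idem := by
      intro hb
      have hb' := trace_Cen hb
      obtain ⟨c, hc, hcD⟩ := exists_cut' h hk hb' hD1 hD2
      subst hcD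
      have hidem := cut_idem h hk hb' hc hD1 hD2
      refine ⟨1 - c, Cen_le (Submodule.sub_mem _ Cen_one hc), ?_, ?_⟩
      · rw [mul_sub, mul_one, sub_mul, one_mul, hidem, sub_self, sub_zero]
      · rw [sub_mul, one_mul]
    comm := by
      intro σ
      rw [sub_sub_cancel]
      exact (sub_eq_zero.1 (h.cmpl_bracket hk (hk.gal σ _ hD1) hD2)).symm }
  rw [← sub_eq_zero.1 h0] at hD1
  exact hD1.2

end main

end

end Pool.Agent.R913.Ind
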