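import Mathlib
import Pool.Agent.R913.Ind.Main
import Pool.Agent.TH504.VY.Main
import Pool.Agent.TH504.CB.Fr

/-!
# Hodge classes on the product of a power of an abelian variety and a variety
-/

set_option autoImplicit false
set_option linter.unusedSectionVars false

namespace Pool.Agent.R913.Ind

open scoped ComplexOrder
open Matrix Module Pool.Agent.H204R3.SP Pool.Agent.H204R3.CM Pool.Agent.W437.HC
  Pool.Agent.W437.HD Pool.Agent.W437.HP Pool.Agent.W437.HR Pool.Agent.W548.Odd
  Pool.Agent.TH131.GHC Pool.Agent.TH504.VY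

noncomputable section

section frame

variable {W T : Type*} [AddCommGroup W] [Module ℚ W] [AddCommGroup T] [Module ℂ T]
  {per : W →+ T} {B : Type*} [Fintype B] [DecidableEq B] {J : Matrix B B ℝ} {ν : Type}
  [Fintype ν] [DecidableEq ν] (Fr : Frame per J ν) {κ : Type} [Fintype κ] [DecidableEq κ]
  {D : Matrix B B ℂ} (hD : D = (-Complex.I) • J.map (fun x : ℝ => (x : ℂ)))

include hD in
/-- A form is a Hodge class if its coordinates are Hodge tensors. -/
theorem isHodge_of_cf (hJ : J * J = -1) {f : W [⋀^κ]→ₗ[ℚ] ℚ}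
    (hf : ∀ σ : κ → ν, IsH D (Fr.cf σ f)) : IsHodge per f := by
  refine ⟨∑ σ : κ → ν, (evalM (cst ℝ (Fr.cf σ f))).compLinearMap (fun k => Fr.aR (σ k)),
    fun w => ?_, fun z hz u => ?_⟩
  · rw [Fr.expand f w]
    simp only [_root_.sum_apply, MultilinearMap.compLinearMap_apply, evalM_apply,
      Fr.aR_per, evalF, cst]
    push_cast
    rfl
  · have h1 : z.re = Real.cos z.arg ∧ z.im = Real.sin z.arg := by
      have h2 := Complex.norm_mul_cos_arg z
      have h3 := Complex.norm_mul_sin_arg z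
      rw [hz, one_mul] at h2 h3
      exact ⟨h2.symm, h3.symm⟩
    simp only [_root_.sum_apply, MultilinearMap.compLinearMap_apply, evalM_apply]
    refine Finset.sum_congr rfl fun σ _ => ?_
    have h2 : (fun k => Fr.aR (σ k) (z • u k)) = fun k => Real.cos z.arg • Fr.aR (σ k) (u k) +
        Real.sin z.arg • (J *ᵥ Fr.aR (σ k) (u k)) := by
      funext k
      rw [Fr.aR_rot, h1.1, h1.2]
    rw [h2]
    exact Pool.Agent.TH504.CB.rot_of_act hJ ((Pool.Agent.TH504.CB.act_real hD).1 (hf σ)) z.arg _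

end frame

section power

variable {g : ℕ} {Z : Matrix (Fin g) (Fin g) ℂ}

/-- Coordinates on a power of an abelian variety. -/
def framePow (hpos : (imM Z).PosDef) (n : ℕ) :
    Frame (perProd (fun _ : Fin n => Z)) (JR Z) (Fin n) where
  a j := LinearMap.proj j
  s j := LinearMap.single ℚ (fun _ : Fin n => (Fin g ⊕ Fin g → ℚ)) j
  tot w := by
    funext j
    rw [Finset.sum_apply, Finset.sum_eq_single j]
    · rw [LinearMap.single_apply, Pi.single_eq_same]
      rfl
    · intro b _ hb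
      exact Pi.single_eq_of_ne (Ne.symm hb) _
    · intro h
      exact absurd (Finset.mem_univ _) h
  aR j :=
    { toFun := fun u => invR Z (u j)
      map_add' := fun v w => by rw [Pi.add_apply, map_add]
      map_smul' := fun r w => by
        rw [Pi.smul_apply, map_smul]
        rfl }
  sR j :=
    { toFun := fun x => Pi.single j (perR Z x)
      map_add' := fun x y => by rw [map_add, Pi.single_add]
      map_smul' := fun r x => by
        rw [map_smul, Pi.single_smul]
        rfl }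
  aR_per j w := by
    change invR Z (perOne Z (w j)) = fun i => ((w j i : ℚ) : ℝ)
    rw [perOne_eq, invR_perR (hpos.isUnit.map Matrix.detMonoidHom)]
  sR_per j x := by
    funext i
    change (Pi.single j (perR Z (fun i => ((x i : ℚ) : ℝ))) : Fin n → Fin g → ℂ) i =
      perOne Z ((Pi.single j x : Fin n → (Fin g ⊕ Fin g → ℚ)) i)
    by_cases h : i = j
    · subst h
      rw [Pi.single_eq_same, Pi.single_eq_same, perOne_eq]
    · rw [Pi.single_eq_of_ne h, Pi.single_eq_of_ne h, map_zero]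
  aR_rot j z u := by
    change invR Z (z • u j) = z.re • (invR Z (u j)) + z.im • (JR Z *ᵥ (invR Z (u j)))
    rw [invR_rotate (hpos.isUnit.map Matrix.detMonoidHom)]
  sR_rot j x := by
    change Pi.single j (perR Z (JR Z *ᵥ x)) =
      Complex.I • (Pi.single j (perR Z x) : Fin n → Fin g → ℂ)
    rw [perR_JR _ (hpos.isUnit.map Matrix.detMonoidHom), Pi.single_smul]

end power

section classes

variable {g : ℕ} {Z : Matrix (Fin g) (Fin g) ℂ} {v : ℕ} {n : ℕ}

/-- The coordinates of a Hodge class are killed by the sum of the Hodge operators. -/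
theorem total_zero (hpos : (imM Z).PosDef) (V : Coh v)
    {F : HAZ (Fin n → (Fin g ⊕ Fin g → ℚ)) v}
    (hF : IsHodgeOnProduct (perProd (fun _ : Fin n => Z)) V F) (k : ℕ) (σ : Fin k → Fin n) :
    opD (Fin k) (Fin v) (DZ Z) (cstX ((framePow hpos n).cfC σ (F k))) +
      opW (Fin k) (Fin g ⊕ Fin g) V.z (cstX ((framePow hpos n).cfC σ (F k))) = 0 := by
  obtain ⟨Φ, h1, h2⟩ := hF
  have h3 := (framePow hpos n).thC_type (D := DZ Z) rfl V σ h2
  have h4 := (framePow hpos n).thC_of_ext σ (h1 k)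
  rw [h4, Int.cast_zero, zero_smul] at h3
  exact h3

/-- The coordinates of a Hodge class are killed by the first Hodge operator if the Hodge structures
are independent. -/
theorem opD_zero (hpos : (imM Z).PosDef) (V : Coh v) (hI : Indep (DZ Z) V.z)
    {F : HAZ (Fin n → (Fin g ⊕ Fin g → ℚ)) v}
    (hF : IsHodgeOnProduct (perProd (fun _ : Fin n => Z)) V F) (k : ℕ) (σ : Fin k → Fin n) :
    opD (Fin k) (Fin v) (DZ Z) (cstX ((framePow hpos n).cfC σ (F k))) = 0 := by
  refine opD_eq_zero (DZ_sq (hpos.isUnit.map Matrix.detMonoidHom)) (DZ_conj _) ?_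
  refine hI k _ ?_ _ (cstX_mem (Submodule.mem_span_singleton_self _))
  intro z hz
  obtain ⟨r, rfl⟩ := mem_cxX_span hz
  rw [map_smul]
  have h1 := total_zero hpos V hF k σ
  change r • (opD (Fin k) (Fin v) (DZ Z) (cstX ((framePow hpos n).cfC σ (F k))) +
      opW (Fin k) (Fin g ⊕ Fin g) V.z (cstX ((framePow hpos n).cfC σ (F k)))) ∈ _
  rw [h1, smul_zero]
  exact Submodule.zero_mem _

theorem opW_zero (hpos : (imM Z).PosDef) (V : Coh v) (hI : Indep (DZ Z) V.z)
    {F : HAZ (Fin n → (Fin g ⊕ Fin g → ℚ)) v}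
    (hF : IsHodgeOnProduct (perProd (fun _ : Fin n => Z)) V F) (k : ℕ) (σ : Fin k → Fin n) :
    opW (Fin k) (Fin g ⊕ Fin g) V.z (cstX ((framePow hpos n).cfC σ (F k))) = 0 := by
  have h1 := total_zero hpos V hF k σ
  rwa [opD_zero hpos V hI hF k σ, zero_add] at h1

/-- The components of a Hodge class are Hodge classes on the power. -/
theorem cmp_isHodge (hpos : (imM Z).PosDef) (V : Coh v) (hI : Indep (DZ Z) V.z)
    {F : HAZ (Fin n → (Fin g ⊕ Fin g → ℚ)) v}
    (hF : IsHodgeOnProduct (perProd (fun _ : Fin n => Z)) V F) (k : ℕ) (b : Fin v) :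
    IsHodge (perProd (fun _ : Fin n => Z)) (cmp b (F k)) := by
  refine isHodge_of_cf (framePow hpos n) (D := DZ Z) rfl
    (JR_sq (hpos.isUnit.map Matrix.detMonoidHom)) fun σ => ?_
  have h1 := congrArg (sl b) (opD_zero hpos V hI hF k σ)
  rw [sl_opD, map_zero] at h1
  exact h1

/-- The values of a Hodge class are Hodge classes on the variety. -/
theorem value_mem (hpos : (imM Z).PosDef) (V : Coh v) (hI : Indep (DZ Z) V.z)
    {F : HAZ (Fin n → (Fin g ⊕ Fin g → ℚ)) v}
    (hF : IsHodgeOnProduct (perProd (fun _ : Fin n => Z)) V F) (k : ℕ)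
    (w : Fin k → (Fin n → (Fin g ⊕ Fin g → ℚ))) : F k w ∈ HY V := by
  have h2 : ∀ (σ : Fin k → Fin n) (I : Fin k → Fin g ⊕ Fin g),
      F k (fun l => (framePow hpos n).s (σ l) (Pi.single (I l) 1)) ∈ HY V := by
    intro σ I
    have h1 := opW_zero hpos V hI hF k σ
    change V.z *ᵥ cv (F k (fun l => (framePow hpos n).s (σ l) (Pi.single (I l) 1))) = 0
    funext b
    have h3 := congrFun h1 (I, b)
    rw [opW_apply] at h3
    exact h3
  have h3 : F k w = ∑ σ : Fin k → Fin n, ∑ I : Fin k → Fin g ⊕ Fin g,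
      (∏ l, (framePow hpos n).a (σ l) (w l) (I l)) •
        F k (fun l => (framePow hpos n).s (σ l) (Pi.single (I l) 1)) := by
    funext b
    have h4 := (framePow hpos n).expand (cmp b (F k)) w
    have h5 : (cmp b (F k)) w = F k w b := rfl
    rw [← h5, h4, Finset.sum_apply]
    refine Finset.sum_congr rfl fun σ _ => ?_
    rw [Finset.sum_apply]
    refine Finset.sum_congr rfl fun I _ => ?_
    rw [Pi.smul_apply, smul_eq_mul, mul_comm]
    rfl
  rw [h3]
  exact Submodule.sum_mem _ fun σ _ => Submodule.sum_mem _ fun I _ =>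
    Submodule.smul_mem _ _ (h2 σ I)

theorem integral_mem (hpos : (imM Z).PosDef) (V : Coh v) (hI : Indep (DZ Z) V.z)
    {F : HAZ (Fin n → (Fin g ⊕ Fin g → ℚ)) v}
    (hF : IsHodgeOnProduct (perProd (fun _ : Fin n => Z)) V F) {k j : ℕ}
    (e : Basis (Fin k ⊕ Fin j) ℚ (Fin n → (Fin g ⊕ Fin g → ℚ)))
    (β : (Fin n → (Fin g ⊕ Fin g → ℚ)) [⋀^Fin j]→ₗ[ℚ] ℚ) : fibreIntegral e F β ∈ HY V := by
  unfold fibreIntegral
  refine Submodule.sum_mem _ fun σ _ => ?_
  exact zsmul_mem (Submodule.smul_mem _ _ (value_mem hpos V hI hF k _)) _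

/-- The Hodge classes of a power are the forms with Hodge coordinates. -/
theorem mem_HH_iff (hpos : (imM Z).PosDef) {k : ℕ}
    (f : (Fin n → (Fin g ⊕ Fin g → ℚ)) [⋀^Fin k]→ₗ[ℚ] ℚ) :
    f ∈ HH (EE (fun _ : Fin n => g)) (fun _ : Unit => DZ (bigD ℂ (fun _ : Fin n => Z))) k ↔
      IsHodge (perProd (fun _ : Fin n => Z)) f := by
  have hp' : ∀ _ : Fin n, (imM Z).PosDef := fun _ => hpos
  have hb := imM_bigD_posDef (fun _ : Fin n => Z) hp'
  constructor
  · intro hf
    refine isHodge_of_cf (frame1 (fun _ : Fin n => Z) hp') (D := DZ (bigD ℂ (fun _ : Fin n => Z)))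
      rfl (JR_sq (hb.isUnit.map Matrix.detMonoidHom)) fun σ => ?_
    exact hf ()
  · intro hf x
    exact Pool.Agent.TH504.CB.isH_cf (frame1 (fun _ : Fin n => Z) hp')
      (D := DZ (bigD ℂ (fun _ : Fin n => Z))) rfl hf (fun _ => ())

/-- **The reproducing property.** -/
theorem mem_of_integrals (hZ : Zᵀ = Z) (hpos : (imM Z).PosDef) (V : Coh v)
    (hI : Indep (DZ Z) V.z) {F : HAZ (Fin n → (Fin g ⊕ Fin g → ℚ)) v}
    (hF : IsHodgeOnProduct (perProd (fun _ : Fin n => Z)) V F)
    {P : Submodule ℚ (HAZ (Fin n → (Fin g ⊕ Fin g → ℚ)) v)}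
    (hP : ∀ (k j : ℕ) (e : Basis (Fin k ⊕ Fin j) ℚ (Fin n → (Fin g ⊕ Fin g → ℚ)))
      (f : (Fin n → (Fin g ⊕ Fin g → ℚ)) [⋀^Fin k]→ₗ[ℚ] ℚ)
      (β : (Fin n → (Fin g ⊕ Fin g → ℚ)) [⋀^Fin j]→ₗ[ℚ] ℚ),
      IsHodge (perProd (fun _ : Fin n => Z)) f → IsHodge (perProd (fun _ : Fin n => Z)) β →
        cross f (fibreIntegral e F β) ∈ P) : F ∈ P := by
  classical
  obtain ⟨N, hN⟩ : ∃ N, N = Fintype.card (Fin (NB (fun _ : Fin n => g)) ⊕
    Fin (NB (fun _ : Fin n => g))) := ⟨_, rfl⟩
  have hdim : finrank ℚ (Fin n → (Fin g ⊕ Fin g → ℚ)) = N := by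
    rw [hN]
    exact finrank_eq_card_basis (basisP (fun _ : Fin n => g))
  have hbig : ∀ k, N < k → F k = 0 := by
    intro k hk
    refine AlternatingMap.ext fun w => ?_
    refine (F k).map_linearDependent w fun hw => ?_
    have h1 := hw.fintype_card_le_finrank
    rw [Fintype.card_fin, hdim] at h1
    omega
  have hsum : F = ∑ k ∈ Finset.range (N + 1),
      (Pi.single k (F k) : HAZ (Fin n → (Fin g ⊕ Fin g → ℚ)) v) := by
    funext k
    rw [Finset.sum_apply]
    by_cases hk : k ∈ Finset.range (N + 1)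
    · rw [Finset.sum_eq_single k]
      · rw [Pi.single_eq_same]
      · intro l _ hl
        exact Pi.single_eq_of_ne (Ne.symm hl) _
      · intro h0
        exact absurd hk h0
    · rw [Finset.sum_eq_zero]
      · refine hbig k ?_
        rw [Finset.mem_range] at hk
        omega
      · intro l hl
        refine Pi.single_eq_of_ne ?_ _
        rintro rfl
        exact hk hl
  rw [hsum]
  refine Submodule.sum_mem _ fun k hk => ?_
  rw [Finset.mem_range] at hk
  have hkN : k + (N - k) = Fintype.card (Fin (NB (fun _ : Fin n => g)) ⊕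
    Fin (NB (fun _ : Fin n => g))) := by omega
  have hq : Fintype.card (Fin (NB (fun _ : Fin n => g)) ⊕ Fin (NB (fun _ : Fin n => g))) =
      Fintype.card (Fin k ⊕ Fin (N - k)) := by
    rw [Fintype.card_sum (α := Fin k), Fintype.card_fin, Fintype.card_fin, hkN]
  let e : Basis (Fin k ⊕ Fin (N - k)) ℚ (Fin n → (Fin g ⊕ Fin g → ℚ)) :=
    (basisP (fun _ : Fin n => g)).reindex (Fintype.equivOfCardEq hq)
  refine reproduce (X := Unit) (EE (fun _ : Fin n => g))
    (fun _ => polOf (bigD_symm (fun _ : Fin n => hZ)) (imM_bigD_posDef _ (fun _ => hpos)))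
    (fun x y => rfl) (fun {κ} _ _ f hf => cfE_inj f hf)
    hkN e F (fun b => (mem_HH_iff hpos _).2 (cmp_isHodge hpos V hI hF k b)) fun f hf β hβ => ?_
  exact hP k _ e f β ((mem_HH_iff hpos _).1 hf) ((mem_HH_iff hpos _).1 hβ)

end classes

end

end Pool.Agent.R913.Ind
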