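import Mathlib
import Pool.Agent.R913.Ind.Class

/-!
# Absolutely Hodge classes and algebraic classes on the product of a power of an abelian variety and a
variety
-/

set_option autoImplicit false
set_option linter.unusedSectionVars false

namespace Pool.Agent.R913.Ind

open Matrix Module Pool.Agent.H204R3.CM Pool.Agent.W437.HC
  Pool.Agent.W437.HD Pool.Agent.W437.HP Pool.Agent.TH131.GHC Pool.Agent.TH504.VY

noncomputable section

variable {g : ℕ}

/-- The inclusion of the rational homology `ℚ ^ g ⊕ ℚ ^ g`, `n` times, of the power `A ^ n` of the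
principally polarized abelian variety `A` with the period matrix `Z` in its tangent space. -/
def powPer (Z : Matrix (Fin g) (Fin g) ℂ) (n : ℕ) :
    (Fin n → (Fin g ⊕ Fin g → ℚ)) →+ (Fin n → Fin g → ℂ) where
  toFun w := fun j => perOne Z (w j)
  map_zero' := by
    funext j
    exact map_zero _
  map_add' v w := by
    funext j
    exact map_add _ _ _

theorem powPer_eq (Z : Matrix (Fin g) (Fin g) ℂ) (n : ℕ) :
    powPer Z n = perProd (fun _ : Fin n => Z) := rfl

section defs

variable {W T : Type} [AddCommGroup W] [Module ℚ W] [AddCommGroup T] [Module ℂ T]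

/-- The span of the products `f ⊗ x` of a Hodge class `f` on the complex torus `A` and a Hodge class `x`
on the variety `Y`. -/
def crossSpan (per : W →+ T) {v : ℕ} (Y : Coh v) : Submodule ℚ (HAZ W v) :=
  Submodule.span ℚ {G | ∃ (k : ℕ) (f : W [⋀^Fin k]→ₗ[ℚ] ℚ) (x : Fin v → ℚ),
    IsHodge per f ∧ IsHodgeOn Y x ∧ G = cross f x}

/-- The exterior product of a Hodge class on the complex torus `A` and a class in `onY` is in `onP`. -/
def CrossMem (per : W →+ T) {v : ℕ} (onY : Submodule ℚ (Fin v → ℚ))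
    (onP : Submodule ℚ (HAZ W v)) : Prop :=
  ∀ (k : ℕ) (f : W [⋀^Fin k]→ₗ[ℚ] ℚ) (x : Fin v → ℚ),
    IsHodge per f → x ∈ onY → cross f x ∈ onP

/-- The direct image on `Y` of the product of a class in `onP` and a Hodge class on the complex torus
`A` is in `onY`. -/
def IntegralMem (per : W →+ T) {v : ℕ} (onY : Submodule ℚ (Fin v → ℚ))
    (onP : Submodule ℚ (HAZ W v)) : Prop :=
  ∀ F ∈ onP, ∀ (k j : ℕ) (e : Basis (Fin k ⊕ Fin j) ℚ W) (β : W [⋀^Fin j]→ₗ[ℚ] ℚ),
    IsHodge per β → fibreIntegral e F β ∈ onY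

/-- Spaces `onY` and `onP` of classes on the variety `Y` and on `A × Y` such as the spaces of the
absolutely Hodge classes: `onP` contains the exterior products of the Hodge classes on the abelian
variety `A` and the classes in `onY`, and `onY` contains the direct images of the products of the
classes in `onP` and the Hodge classes on `A`. -/
structure AbsSystem (per : W →+ T) (v : ℕ) where
  /-- the classes on `Y` -/
  onY : Submodule ℚ (Fin v → ℚ)
  /-- the classes on `A × Y` -/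
  onP : Submodule ℚ (HAZ W v)
  cross_mem : CrossMem per onY onP
  integral_mem : IntegralMem per onY onP

/-- Every Hodge class on the product of the complex torus `A` and `Y` is a sum of products of Hodge
classes on `A` and on `Y`. -/
def HodgeAreProducts (per : W →+ T) {v : ℕ} (Y : Coh v) : Prop :=
  ∀ F : HAZ W v, IsHodgeOnProduct per Y F → F ∈ crossSpan per Y

/-- All Hodge classes on `A × Y` are in `onP` if and only if all Hodge classes on `Y` are in `onY`, for
all spaces `onY` and `onP` as in `AbsSystem` (such as the absolutely Hodge classes). -/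
def AbsReducesToY (per : W →+ T) {v : ℕ} (Y : Coh v) : Prop :=
  ∀ S : AbsSystem per v, (∀ F : HAZ W v, IsHodgeOnProduct per Y F → F ∈ S.onP) ↔
    ∀ x, IsHodgeOn Y x → x ∈ S.onY

/-- The exterior product of classes in `algA` and in `algY` is in `algP`. -/
def CrossAlg {v : ℕ} (algA : ∀ k : ℕ, Submodule ℚ (W [⋀^Fin k]→ₗ[ℚ] ℚ))
    (algY : Submodule ℚ (Fin v → ℚ)) (algP : Submodule ℚ (HAZ W v)) : Prop :=
  ∀ (k : ℕ), ∀ f ∈ algA k, ∀ x ∈ algY, cross f x ∈ algP

/-- The direct image on `Y` of the product of classes in `algP` and in `algA` is in `algY`. -/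
def IntegralAlg {v : ℕ} (algA : ∀ k : ℕ, Submodule ℚ (W [⋀^Fin k]→ₗ[ℚ] ℚ))
    (algY : Submodule ℚ (Fin v → ℚ)) (algP : Submodule ℚ (HAZ W v)) : Prop :=
  ∀ F ∈ algP, ∀ (k j : ℕ) (e : Basis (Fin k ⊕ Fin j) ℚ W), ∀ β ∈ algA j,
    fibreIntegral e F β ∈ algY

/-- Spaces `algA`, `algY` and `algP` of classes on a complex torus `A`, on the variety `Y` and on
`A × Y` such as the spans of the classes of algebraic cycles: they are stable under exterior products
and under direct images on `Y` of products with classes in `algA`, the classes of highest degree on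
`A` are in `algA`, and the restriction of a class in `algP` to `A × {y}` is in `algA`; the
linear form `ev` is the restriction to the point `y`. -/
structure AlgSystem (W : Type) [AddCommGroup W] [Module ℚ W] {v : ℕ}
    (ev : (Fin v → ℚ) →ₗ[ℚ] ℚ) where
  /-- the classes on `A` -/
  algA : ∀ k : ℕ, Submodule ℚ (W [⋀^Fin k]→ₗ[ℚ] ℚ)
  /-- the classes on `Y` -/
  algY : Submodule ℚ (Fin v → ℚ)
  /-- the classes on `A × Y` -/
  algP : Submodule ℚ (HAZ W v)
  cross_mem : CrossAlg algA algY algP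
  integral_mem : IntegralAlg algA algY algP
  top_mem : ∀ β, β ∈ algA (finrank ℚ W)
  restrict_mem : ∀ F ∈ algP, ∀ k : ℕ, ev.compAlternatingMap (F k) ∈ algA k

/-- For all spaces `S` of classes on `A × Y` and on `Y` as in `AbsSystem` (the absolutely Hodge classes),
consisting of Hodge classes, with a class `u` on `Y` such that `ev u = 1` (the fundamental class), and
all spaces `C` as in `AlgSystem` (the algebraic classes): the classes of `S` on `A × Y` are in `C`
if and only if all Hodge classes on `A` are in `C` and the classes of `S` on `Y` are in `C`. -/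
def AlgReducesToFactors (per : W →+ T) {v : ℕ} (Y : Coh v) : Prop :=
  ∀ (S : AbsSystem per v) (ev : (Fin v → ℚ) →ₗ[ℚ] ℚ) (u : Fin v → ℚ) (C : AlgSystem W ev),
    (∀ F ∈ S.onP, IsHodgeOnProduct per Y F) → u ∈ S.onY → ev u = 1 →
      (S.onP ≤ C.algP ↔ (∀ (k : ℕ) (f : W [⋀^Fin k]→ₗ[ℚ] ℚ), IsHodge per f → f ∈ C.algA k) ∧
        S.onY ≤ C.algY)

end defs

variable {Z : Matrix (Fin g) (Fin g) ℂ} {v n : ℕ}

/-- Hodge classes on `A ^ n × Y` are sums of products. -/
theorem mem_crossSpan (hZ : Zᵀ = Z) (hpos : (imM Z).PosDef) (V : Coh v)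
    (hI : Indep (DZ Z) V.z) {F : HAZ (Fin n → (Fin g ⊕ Fin g → ℚ)) v}
    (hF : IsHodgeOnProduct (powPer Z n) V F) : F ∈ crossSpan (powPer Z n) V :=
  mem_of_integrals hZ hpos V hI hF fun k _ e f β hf _ =>
    Submodule.subset_span ⟨k, f, _, hf, integral_mem hpos V hI hF e β, rfl⟩

/-- The unit class. -/
def oneA (g n : ℕ) : (Fin n → (Fin g ⊕ Fin g → ℚ)) [⋀^Fin 0]→ₗ[ℚ] ℚ :=
  AlternatingMap.constOfIsEmpty ℚ (Fin n → (Fin g ⊕ Fin g → ℚ)) (Fin 0) 1

theorem oneA_hodge : IsHodge (powPer Z n) (oneA g n) :=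
  ⟨(AlternatingMap.constOfIsEmpty ℝ (Fin n → Fin g → ℂ) (Fin 0) (1 : ℝ)).toMultilinearMap,
    fun w => by
      change (1 : ℝ) = ((1 : ℚ) : ℝ)
      rw [Rat.cast_one],
    fun z _ u => rfl⟩

theorem cross_one_hodge (V : Coh v) {x : Fin v → ℚ} (hx : IsHodgeOn V x) :
    IsHodgeOnProduct (powPer Z n) V (cross (oneA g n) x) := by
  refine ⟨Pi.single 0 (AlternatingMap.constOfIsEmpty ℝ (Fin n → Fin g → ℂ) (Fin 0) (cv x)),
    fun k w => ?_, fun k u => ?_⟩
  · by_cases hk : k = 0
    · subst hk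
      unfold cross
      rw [Pi.single_eq_same, Pi.single_eq_same]
      change cv x = cv ((1 : ℚ) • x)
      rw [one_smul]
    · unfold cross
      rw [Pi.single_eq_of_ne hk, Pi.single_eq_of_ne hk]
      funext b
      simp [Pool.Agent.TH131.GHC.cv]
  · by_cases hk : k = 0
    · subst hk
      rw [Pi.single_eq_same]
      change (-Complex.I) • ∑ l : Fin 0, _ + V.z *ᵥ cv x = ((0 : ℤ) : ℂ) • cv x
      rw [show V.z *ᵥ cv x = 0 from hx]
      simp
    · rw [Pi.single_eq_of_ne hk]
      simp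

theorem fibreIntegral_cross {k j : ℕ}
    (e : Basis (Fin k ⊕ Fin j) ℚ (Fin n → (Fin g ⊕ Fin g → ℚ)))
    (f : (Fin n → (Fin g ⊕ Fin g → ℚ)) [⋀^Fin k]→ₗ[ℚ] ℚ) (x : Fin v → ℚ)
    (β : (Fin n → (Fin g ⊕ Fin g → ℚ)) [⋀^Fin j]→ₗ[ℚ] ℚ) :
    fibreIntegral e (cross f x) β = wedgeW f β e • x := by
  funext b
  rw [fibreIntegral_apply, wedgeW_apply, wedgeW_apply, Pi.smul_apply, smul_eq_mul,
    Finset.sum_mul]
  refine Finset.sum_congr rfl fun σ _ => ?_
  have h1 : ∀ w, cmp b (cross f x k) w = f w * x b := by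
    intro w
    unfold cross
    rw [Pi.single_eq_same]
    rfl
  rw [h1, zsmul_eq_mul, zsmul_eq_mul]
  ring

/-- A dual class of highest degree. -/
theorem exists_top (hZ : Zᵀ = Z) (hpos : (imM Z).PosDef) (n : ℕ) :
    ∃ (e : Basis (Fin 0 ⊕ Fin (finrank ℚ (Fin n → (Fin g ⊕ Fin g → ℚ)))) ℚ
      (Fin n → (Fin g ⊕ Fin g → ℚ)))
      (β : (Fin n → (Fin g ⊕ Fin g → ℚ)) [⋀^Fin (finrank ℚ
        (Fin n → (Fin g ⊕ Fin g → ℚ)))]→ₗ[ℚ] ℚ),
      IsHodge (powPer Z n) β ∧ wedgeW (oneA g n) β e ≠ 0 := by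
  classical
  have hdim : finrank ℚ (Fin n → (Fin g ⊕ Fin g → ℚ)) =
      Fintype.card (Fin (NB (fun _ : Fin n => g)) ⊕ Fin (NB (fun _ : Fin n => g))) :=
    finrank_eq_card_basis (basisP (fun _ : Fin n => g))
  have hkN : 0 + finrank ℚ (Fin n → (Fin g ⊕ Fin g → ℚ)) =
      Fintype.card (Fin (NB (fun _ : Fin n => g)) ⊕ Fin (NB (fun _ : Fin n => g))) := by
    rw [zero_add, hdim]
  have hq : Fintype.card (Fin (NB (fun _ : Fin n => g)) ⊕ Fin (NB (fun _ : Fin n => g))) =
      Fintype.card (Fin 0 ⊕ Fin (finrank ℚ (Fin n → (Fin g ⊕ Fin g → ℚ)))) := by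
    rw [Fintype.card_sum (α := Fin 0), Fintype.card_fin, Fintype.card_fin, hkN]
  let e : Basis (Fin 0 ⊕ Fin (finrank ℚ (Fin n → (Fin g ⊕ Fin g → ℚ)))) ℚ
      (Fin n → (Fin g ⊕ Fin g → ℚ)) :=
    (basisP (fun _ : Fin n => g)).reindex (Fintype.equivOfCardEq hq)
  have h0 : oneA g n ≠ 0 := by
    intro h
    have h1 := congrArg (fun F => F (fun l => l.elim0)) h
    exact one_ne_zero h1
  obtain ⟨β, hβ, hne⟩ := exists_dual (X := Unit) (EE (fun _ : Fin n => g))
    (fun _ => polOf (bigD_symm (fun _ : Fin n => hZ)) (imM_bigD_posDef _ (fun _ => hpos)))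
    (fun x y => rfl) (fun {κ} _ _ f hf => cfE_inj f hf) hkN e
    ((mem_HH_iff hpos _).2 (oneA_hodge (Z := Z))) h0
  exact ⟨e, β, (mem_HH_iff hpos _).1 hβ, hne⟩

/-- **Absolutely Hodge classes on the product.** -/
theorem abs_iff (hZ : Zᵀ = Z) (hpos : (imM Z).PosDef) (V : Coh v)
    (hI : Indep (DZ Z) V.z) (S : AbsSystem (powPer Z n) v) :
    (∀ F, IsHodgeOnProduct (powPer Z n) V F → F ∈ S.onP) ↔
      ∀ x, IsHodgeOn V x → x ∈ S.onY := by
  constructor
  · intro h x hx
    have h1 := h _ (cross_one_hodge (Z := Z) (n := n) V hx)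
    obtain ⟨e, β, hβ, hne⟩ := exists_top hZ hpos n
    have h2 := S.integral_mem _ h1 _ _ e β hβ
    rw [fibreIntegral_cross] at h2
    have h3 := S.onY.smul_mem (wedgeW (oneA g n) β e)⁻¹ h2
    rwa [smul_smul, inv_mul_cancel₀ hne, one_smul] at h3
  · intro h F hF
    exact mem_of_integrals hZ hpos V hI hF fun k _ e f β hf _ =>
      S.cross_mem k f _ hf (h _ (integral_mem hpos V hI hF e β))

/-- **Algebraic classes on the product.** -/
theorem alg_iff (hZ : Zᵀ = Z) (hpos : (imM Z).PosDef) (V : Coh v)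
    (hI : Indep (DZ Z) V.z) (S : AbsSystem (powPer Z n) v)
    (hS : ∀ F ∈ S.onP, IsHodgeOnProduct (powPer Z n) V F) {ev : (Fin v → ℚ) →ₗ[ℚ] ℚ}
    {u : Fin v → ℚ} (hu : u ∈ S.onY) (hev : ev u = 1) (C : AlgSystem (Fin n → (Fin g ⊕ Fin g → ℚ)) ev) :
    S.onP ≤ C.algP ↔ (∀ (k : ℕ) (f : (Fin n → (Fin g ⊕ Fin g → ℚ)) [⋀^Fin k]→ₗ[ℚ] ℚ),
      IsHodge (powPer Z n) f → f ∈ C.algA k) ∧ S.onY ≤ C.algY := by
  constructor
  · intro h
    refine ⟨fun k f hf => ?_, fun x hx => ?_⟩
    · have h1 := C.restrict_mem _ (h (S.cross_mem k f u hf hu)) k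
      have h2 : ev.compAlternatingMap (cross f u k) = f := by
        refine AlternatingMap.ext fun w => ?_
        unfold cross
        rw [Pi.single_eq_same]
        change ev (f w • u) = f w
        rw [map_smul, hev, smul_eq_mul, mul_one]
      rwa [h2] at h1
    · have h1 := h (S.cross_mem 0 (oneA g n) x oneA_hodge hx)
      obtain ⟨e, β, hβ, hne⟩ := exists_top hZ hpos n
      have h2 := C.integral_mem _ h1 _ _ e β (C.top_mem β)
      rw [fibreIntegral_cross] at h2
      have h3 := C.algY.smul_mem (wedgeW (oneA g n) β e)⁻¹ h2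
      rwa [smul_smul, inv_mul_cancel₀ hne, one_smul] at h3
  · rintro ⟨hA, hY⟩ F hF
    exact mem_of_integrals hZ hpos V hI (hS F hF) fun k j e f β hf hβ =>
      C.cross_mem k f (hA k f hf) _ (hY (S.integral_mem F hF k j e β hβ))

end

end Pool.Agent.R913.Ind
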