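import Mathlib
import Pool.Agent.R913.Ind.Abs

/-!
# The product of Hodge classes is a Hodge class
-/

set_option autoImplicit false
set_option linter.unusedSectionVars false

namespace Pool.Agent.R913.Ind

open Matrix Module Pool.Agent.H204R3.CM Pool.Agent.W437.HC
  Pool.Agent.W437.HD Pool.Agent.W437.HP Pool.Agent.TH131.GHC Pool.Agent.TH504.VY

noncomputable section

section rot

variable {T : Type*} [AddCommGroup T] [Module ℂ T] {κ : Type*} [Fintype κ] [DecidableEq κ]

theorem expand_rot (ψ : MultilinearMap ℝ (fun _ : κ => T) ℝ) (u : κ → T) (a b : ℝ) :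
    ψ (fun l => a • u l + b • (Complex.I • u l)) = ∑ s : Finset κ,
      (∏ l, if l ∈ s then a else b) * ψ (s.piecewise u (fun l => Complex.I • u l)) := by
  have h1 : (fun l => a • u l + b • (Complex.I • u l)) =
      (fun l => a • u l) + fun l => b • (Complex.I • u l) := rfl
  rw [h1, MultilinearMap.map_add_univ]
  refine Finset.sum_congr rfl fun s _ => ?_
  have h2 : s.piecewise (fun l => a • u l) (fun l => b • (Complex.I • u l)) =
      fun l => (if l ∈ s then a else b) • s.piecewise u (fun l => Complex.I • u l) l := by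
    funext l
    by_cases h : l ∈ s
    · simp [h]
    · simp [h]
  rw [h2, MultilinearMap.map_smul_univ, smul_eq_mul]

/-- The derivative of the rotations. -/
theorem rot_sum (ψ : MultilinearMap ℝ (fun _ : κ => T) ℝ)
    (h : ∀ z : ℂ, ‖z‖ = 1 → ∀ u : κ → T, ψ (fun l => z • u l) = ψ u) (u : κ → T) :
    ∑ l, ψ (Function.update u l (Complex.I • u l)) = 0 := by
  have hconst : ∀ θ : ℝ, ψ (fun l => Real.cos θ • u l + Real.sin θ • (Complex.I • u l)) =
      ψ u := by
    intro θ
    rw [← h (Complex.cos θ + Complex.sin θ * Complex.I) (by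
      rw [← Complex.exp_mul_I, Complex.norm_exp_ofReal_mul_I]) u]
    congr 1
    funext l
    rw [add_smul, mul_smul]
    congr 1
    · rw [← Complex.ofReal_cos]
      exact RCLike.real_smul_eq_coe_smul (K := ℂ) (Real.cos θ) (u l)
    · rw [← Complex.ofReal_sin]
      exact RCLike.real_smul_eq_coe_smul (K := ℂ) (Real.sin θ) (Complex.I • u l)
  have hd : HasDerivAt (fun θ : ℝ => ∑ s : Finset κ,
      (∏ l, if l ∈ s then Real.cos θ else Real.sin θ) *
        ψ (s.piecewise u (fun l => Complex.I • u l)))
      (∑ s : Finset κ, (∑ l, (∏ m ∈ Finset.univ.erase l, if m ∈ s then Real.cos 0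
        else Real.sin 0) • (if l ∈ s then -Real.sin 0 else Real.cos 0)) *
        ψ (s.piecewise u (fun l => Complex.I • u l))) 0 := by
    refine HasDerivAt.fun_sum fun s _ => ?_
    refine HasDerivAt.mul_const ?_ _
    refine HasDerivAt.fun_finsetProd fun l _ => ?_
    by_cases hl : l ∈ s
    · simp only [hl, if_true]
      exact Real.hasDerivAt_cos 0
    · simp only [hl, if_false]
      exact Real.hasDerivAt_sin 0
  have h1 : (fun θ : ℝ => ∑ s : Finset κ,
      (∏ l, if l ∈ s then Real.cos θ else Real.sin θ) *
        ψ (s.piecewise u (fun l => Complex.I • u l))) = fun _ => ψ u := by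
    funext θ
    rw [← expand_rot, hconst]
  rw [h1] at hd
  have h2 := hd.unique (hasDerivAt_const (0 : ℝ) (ψ u))
  rw [← h2]
  have h3 : ∀ s : Finset κ, (∑ l, (∏ m ∈ Finset.univ.erase l, if m ∈ s then Real.cos 0
        else Real.sin 0) • (if l ∈ s then -Real.sin 0 else Real.cos 0)) *
        ψ (s.piecewise u (fun l => Complex.I • u l)) = ∑ l, (if s = Finset.univ.erase l then
          ψ (Function.update u l (Complex.I • u l)) else 0) := by
    intro s
    rw [Finset.sum_mul]
    refine Finset.sum_congr rfl fun l _ => ?_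
    by_cases hs : s = Finset.univ.erase l
    · rw [if_pos hs]
      have e1 : ∏ m ∈ Finset.univ.erase l, (if m ∈ s then Real.cos 0 else Real.sin 0) = 1 := by
        refine Finset.prod_eq_one fun m hm => ?_
        rw [if_pos (by rw [hs]; exact hm), Real.cos_zero]
      have e2 : l ∉ s := by
        rw [hs]
        simp
      rw [e1, if_neg e2, Real.cos_zero, smul_eq_mul, mul_one, one_mul]
      congr 1
      funext m
      by_cases hm : m = l
      · subst hm
        rw [Function.update_self, Finset.piecewise_eq_of_notMem _ _ _ e2]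
      · rw [Function.update_of_ne hm, Finset.piecewise_eq_of_mem]
        rw [hs]
        exact Finset.mem_erase.2 ⟨hm, Finset.mem_univ _⟩
    · rw [if_neg hs]
      by_cases hl : l ∈ s
      · rw [if_pos hl, Real.sin_zero, neg_zero, smul_zero, zero_mul]
      · obtain ⟨m, hm1, hm2⟩ : ∃ m, m ≠ l ∧ m ∉ s := by
          by_contra hcon
          push Not at hcon
          apply hs
          ext m
          rw [Finset.mem_erase]
          constructor
          · intro hm
            refine ⟨?_, Finset.mem_univ _⟩
            rintro rfl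
            exact hl hm
          · rintro ⟨hm, -⟩
            exact hcon m hm
        rw [Finset.prod_eq_zero (Finset.mem_erase.2 ⟨hm1, Finset.mem_univ m⟩)
          (by rw [if_neg hm2, Real.sin_zero]), zero_smul, zero_mul]
  rw [Finset.sum_congr rfl (fun s _ => h3 s), Finset.sum_comm]
  refine Finset.sum_congr rfl fun l _ => ?_
  rw [Finset.sum_ite_eq' Finset.univ (Finset.univ.erase l), if_pos (Finset.mem_univ _)]

end rot

section cross

variable {W T : Type} [AddCommGroup W] [Module ℚ W] [AddCommGroup T] [Module ℂ T]
  {per : W →+ T} {v : ℕ}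

/-- The product of a Hodge class on a complex torus and a Hodge class on a variety is a Hodge class on
the product. -/
theorem cross_hodge (V : Coh v) {k : ℕ} {f : W [⋀^Fin k]→ₗ[ℚ] ℚ} {x : Fin v → ℚ}
    (hf : IsHodge per f) (hx : IsHodgeOn V x) : IsHodgeOnProduct per V (cross f x) := by
  obtain ⟨ψ, h1, h2⟩ := hf
  let L : ℝ →ₗ[ℝ] (Fin v → ℂ) := LinearMap.toSpanSingleton ℝ (Fin v → ℂ)
    ((((k.factorial : ℝ)⁻¹ : ℝ) : ℂ) • cv x)
  let Φ : T [⋀^Fin k]→ₗ[ℝ] (Fin v → ℂ) :=
    L.compAlternatingMap (MultilinearMap.alternatization ψ)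
  have hk0 : ((k.factorial : ℝ) : ℂ) ≠ 0 := by
    exact_mod_cast Nat.factorial_ne_zero k
  have hΦ : ∀ w : Fin k → W, Φ (fun l => per (w l)) = cv ((f w) • x) := by
    intro w
    have h3 : MultilinearMap.alternatization ψ (fun l => per (w l)) =
        (k.factorial : ℝ) * ((f w : ℚ) : ℝ) := by
      rw [MultilinearMap.alternatization_apply]
      have h4 : ∀ σ : Equiv.Perm (Fin k), Equiv.Perm.sign σ • ψ.domDomCongr σ
          (fun l => per (w l)) = ((f w : ℚ) : ℝ) := by
        intro σ
        have h5 : ψ.domDomCongr σ (fun l => per (w l)) = ((f (fun l => w (σ l)) : ℚ) : ℝ) :=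
          h1 (fun l => w (σ l))
        have h6 : f (fun l => w (σ l)) = Equiv.Perm.sign σ • f w := f.map_perm w σ
        rw [h5, h6]
        rcases Int.units_eq_one_or (Equiv.Perm.sign σ) with h7 | h7
        · rw [h7]
          simp
        · rw [h7]
          simp
      rw [Finset.sum_congr rfl (fun σ _ => h4 σ), Finset.sum_const, Finset.card_univ,
        Fintype.card_perm, nsmul_eq_mul, Fintype.card_fin]
    change (MultilinearMap.alternatization ψ (fun l => per (w l))) •
      ((((k.factorial : ℝ)⁻¹ : ℝ) : ℂ) • cv x) = _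
    rw [h3]
    funext b
    simp only [Pi.smul_apply, smul_eq_mul, Pool.Agent.TH131.GHC.cv, Complex.real_smul]
    push_cast
    have h8 : ((k.factorial : ℂ)) ≠ 0 := by exact_mod_cast Nat.factorial_ne_zero k
    field_simp
  have hrot : ∀ u : Fin k → T, ∑ l, Φ (Function.update u l (Complex.I • u l)) = 0 := by
    intro u
    have h3 : ∑ l, MultilinearMap.alternatization ψ (Function.update u l (Complex.I • u l)) =
        0 := by
      refine rot_sum (MultilinearMap.alternatization ψ).toMultilinearMap (fun z hz u => ?_) u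
      change MultilinearMap.alternatization ψ (fun l => z • u l) =
        MultilinearMap.alternatization ψ u
      rw [MultilinearMap.alternatization_apply, MultilinearMap.alternatization_apply]
      refine Finset.sum_congr rfl fun σ _ => ?_
      congr 1
      exact h2 z hz (fun l => u (σ l))
    have h4 : ∀ l, Φ (Function.update u l (Complex.I • u l)) =
        L (MultilinearMap.alternatization ψ (Function.update u l (Complex.I • u l))) :=
      fun l => rfl
    rw [Finset.sum_congr rfl (fun l _ => h4 l), ← map_sum, h3, map_zero]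
  refine ⟨Pi.single k Φ, fun m w => ?_, fun m u => ?_⟩
  · by_cases hm : m = k
    · subst hm
      unfold cross
      rw [Pi.single_eq_same, Pi.single_eq_same, hΦ]
      rfl
    · unfold cross
      rw [Pi.single_eq_of_ne hm, Pi.single_eq_of_ne hm]
      funext b
      simp [Pool.Agent.TH131.GHC.cv]
  · by_cases hm : m = k
    · subst hm
      rw [Pi.single_eq_same, hrot, smul_zero, zero_add, Int.cast_zero, zero_smul]
      change V.z *ᵥ ((MultilinearMap.alternatization ψ u) •
        ((((m.factorial : ℝ)⁻¹ : ℝ) : ℂ) • cv x)) = 0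
      have h3 : (MultilinearMap.alternatization ψ u) •
          ((((m.factorial : ℝ)⁻¹ : ℝ) : ℂ) • cv x) =
          ((((MultilinearMap.alternatization ψ u) * (m.factorial : ℝ)⁻¹ : ℝ)) : ℂ) • cv x := by
        funext b
        simp only [Pi.smul_apply, smul_eq_mul, Complex.real_smul]
        push_cast
        ring
      rw [h3, mulVec_smul, show V.z *ᵥ cv x = 0 from hx, smul_zero]
    · rw [Pi.single_eq_of_ne hm]
      simp

end cross

end

end Pool.Agent.R913.Ind
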