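import Mathlib
import Pool.Agent.R913.Ind.Rot

/-!
# Conjugates of Hodge classes on the product of a power of an abelian variety and a variety
-/

set_option autoImplicit false
set_option linter.unusedSectionVars false

namespace Pool.Agent.R913.Ind

open Matrix Module Pool.Agent.H204R3.CM Pool.Agent.W437.HC
  Pool.Agent.W437.HD Pool.Agent.W437.HP Pool.Agent.TH131.GHC Pool.Agent.TH504.VY

noncomputable section

section defs

variable {W T W' T' : Type} [AddCommGroup W] [Module ℚ W] [AddCommGroup T] [Module ℂ T]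
  [AddCommGroup W'] [Module ℚ W'] [AddCommGroup T'] [Module ℂ T'] {v v' : ℕ}

/-- Every Hodge class `f` on the abelian variety `A` has a conjugate `f'`, and `f'` is a Hodge class on
the conjugate abelian variety `A'`. -/
def HodgeConj (per : W →+ T) (per' : W' →+ T')
    (relA : ∀ k : ℕ, Submodule ℚ ((W [⋀^Fin k]→ₗ[ℚ] ℚ) × (W' [⋀^Fin k]→ₗ[ℚ] ℚ))) : Prop :=
  ∀ (k : ℕ) (f : W [⋀^Fin k]→ₗ[ℚ] ℚ), IsHodge per f → ∃ f', IsHodge per' f' ∧ (f, f') ∈ relA k

/-- The exterior product of the conjugates of a Hodge class on `A` and a class on `Y` is the conjugate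
of their exterior product. -/
def CrossConj (per : W →+ T) (per' : W' →+ T')
    (relA : ∀ k : ℕ, Submodule ℚ ((W [⋀^Fin k]→ₗ[ℚ] ℚ) × (W' [⋀^Fin k]→ₗ[ℚ] ℚ)))
    (relY : Submodule ℚ ((Fin v → ℚ) × (Fin v' → ℚ)))
    (relP : Submodule ℚ (HAZ W v × HAZ W' v')) : Prop :=
  ∀ (k : ℕ) (f : W [⋀^Fin k]→ₗ[ℚ] ℚ) (f' : W' [⋀^Fin k]→ₗ[ℚ] ℚ) (x : Fin v → ℚ)
    (x' : Fin v' → ℚ), IsHodge per f → IsHodge per' f' → (f, f') ∈ relA k → (x, x') ∈ relY →
      (cross f x, cross f' x') ∈ relP

/-- The direct image on `Y` commutes with conjugation: if `F'` and `β'` are the conjugates of the class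
`F` on `A × Y` and of the Hodge class `β` on `A`, then the direct image of `F' ∧ β'` is the conjugate
of the direct image of `F ∧ β`, up to a factor `r` which depends only on the bases `e`, `e'` of the
homologies which are used to integrate. -/
def IntegralConj (per : W →+ T) (per' : W' →+ T')
    (relA : ∀ k : ℕ, Submodule ℚ ((W [⋀^Fin k]→ₗ[ℚ] ℚ) × (W' [⋀^Fin k]→ₗ[ℚ] ℚ)))
    (relY : Submodule ℚ ((Fin v → ℚ) × (Fin v' → ℚ)))
    (relP : Submodule ℚ (HAZ W v × HAZ W' v')) : Prop :=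
  ∀ (k j : ℕ) (e : Basis (Fin k ⊕ Fin j) ℚ W) (e' : Basis (Fin k ⊕ Fin j) ℚ W'), ∃ r : ℚ,
    ∀ (F : HAZ W v) (F' : HAZ W' v') (β : W [⋀^Fin j]→ₗ[ℚ] ℚ) (β' : W' [⋀^Fin j]→ₗ[ℚ] ℚ),
      (F, F') ∈ relP → IsHodge per β → IsHodge per' β' → (β, β') ∈ relA j →
        (fibreIntegral e F β, r • fibreIntegral e' F' β') ∈ relY

/-- The relations `x'` is the conjugate of `x`, for the rational classes on an abelian variety `A`,
a variety `Y` and `A × Y` and on their conjugates by an automorphism of `ℂ`, with respect to de Rham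
cohomology or to étale cohomology. -/
structure Conjugation (per : W →+ T) (per' : W' →+ T') (v v' : ℕ) where
  /-- the conjugates of the classes on `A` -/
  relA : ∀ k : ℕ, Submodule ℚ ((W [⋀^Fin k]→ₗ[ℚ] ℚ) × (W' [⋀^Fin k]→ₗ[ℚ] ℚ))
  /-- the conjugates of the classes on `Y` -/
  relY : Submodule ℚ ((Fin v → ℚ) × (Fin v' → ℚ))
  /-- the conjugates of the classes on `A × Y` -/
  relP : Submodule ℚ (HAZ W v × HAZ W' v')
  deligne : HodgeConj per per' relA
  cross_mem : CrossConj per per' relA relY relP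
  integral_mem : IntegralConj per per' relA relY relP

/-- Every Hodge class on `Y` has a conjugate which is a Hodge class on `Y'`. -/
def ConjOn (Y : Coh v) (Y' : Coh v') (rel : Submodule ℚ ((Fin v → ℚ) × (Fin v' → ℚ))) : Prop :=
  ∀ x, IsHodgeOn Y x → ∃ x', IsHodgeOn Y' x' ∧ (x, x') ∈ rel

/-- Every Hodge class on `A × Y` has a conjugate which is a Hodge class on `A' × Y'`. -/
def ConjOnProduct (per : W →+ T) (per' : W' →+ T') (Y : Coh v) (Y' : Coh v')
    (rel : Submodule ℚ (HAZ W v × HAZ W' v')) : Prop :=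
  ∀ F, IsHodgeOnProduct per Y F → ∃ F', IsHodgeOnProduct per' Y' F' ∧ (F, F') ∈ rel

/-- Every Hodge class on `A × Y` is a sum of products of Hodge classes on `A` and on `Y` and has
a conjugate which is a sum of products of Hodge classes on `A'` and on `Y'`. -/
def ConjAreProducts (per : W →+ T) (per' : W' →+ T') (Y : Coh v) (Y' : Coh v')
    (rel : Submodule ℚ (HAZ W v × HAZ W' v')) : Prop :=
  ∀ F, IsHodgeOnProduct per Y F → F ∈ crossSpan per Y ∧ ∃ F' ∈ crossSpan per' Y', (F, F') ∈ rel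

/-- For all relations as in `Conjugation`: all Hodge classes on `A × Y` have conjugates which are Hodge
classes on `A' × Y'` if and only if all Hodge classes on `Y` have conjugates which are Hodge classes
on `Y'`, and then the Hodge classes on `A × Y` and their conjugates are sums of products. -/
def ConjReducesToY (per : W →+ T) (per' : W' →+ T') (Y : Coh v) (Y' : Coh v') : Prop :=
  ∀ C : Conjugation per per' v v',
    (ConjOnProduct per per' Y Y' C.relP ↔ ConjOn Y Y' C.relY) ∧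
      (ConjOn Y Y' C.relY → ConjAreProducts per per' Y Y' C.relP)

end defs

section general

variable {W T : Type} [AddCommGroup W] [Module ℚ W] [AddCommGroup T] [Module ℂ T]
  {per : W →+ T} {v : ℕ}

theorem hodge_add {Y : Coh v} {F G : HAZ W v} (hF : IsHodgeOnProduct per Y F)
    (hG : IsHodgeOnProduct per Y G) : IsHodgeOnProduct per Y (F + G) := by
  obtain ⟨Φ, h1, h2⟩ := hF
  obtain ⟨Ψ, h3, h4⟩ := hG
  refine ⟨Φ + Ψ, fun k w => ?_, fun k u => ?_⟩
  · change Φ k (fun l => per (w l)) + Ψ k (fun l => per (w l)) = cv (F k w + G k w)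
    rw [h1, h3]
    funext b
    simp [Pool.Agent.TH131.GHC.cv]
  · have e1 := h2 k u
    have e2 := h4 k u
    rw [Int.cast_zero, zero_smul] at e1 e2 ⊢
    change (-Complex.I) • ∑ l, (Φ k (Function.update u l (Complex.I • u l)) +
      Ψ k (Function.update u l (Complex.I • u l))) + Y.z *ᵥ (Φ k u + Ψ k u) = 0
    rw [Finset.sum_add_distrib, smul_add, mulVec_add]
    have e3 := congrArg₂ (· + ·) e1 e2
    simp only [add_zero] at e3
    rw [← e3]
    abel

theorem hodge_smul {Y : Coh v} {F : HAZ W v} (r : ℚ) (hF : IsHodgeOnProduct per Y F) :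
    IsHodgeOnProduct per Y (r • F) := by
  obtain ⟨Φ, h1, h2⟩ := hF
  refine ⟨(r : ℂ) • Φ, fun k w => ?_, fun k u => ?_⟩
  · change (r : ℂ) • Φ k (fun l => per (w l)) = cv (r • F k w)
    rw [h1]
    funext b
    simp [Pool.Agent.TH131.GHC.cv]
  · have e1 := h2 k u
    rw [Int.cast_zero, zero_smul] at e1 ⊢
    change (-Complex.I) • ∑ l, ((r : ℂ) • Φ k (Function.update u l (Complex.I • u l))) +
      Y.z *ᵥ ((r : ℂ) • Φ k u) = 0
    rw [← Finset.smul_sum, mulVec_smul, smul_comm, ← smul_add, e1, smul_zero]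

theorem hodge_zero {Y : Coh v} : IsHodgeOnProduct per Y (0 : HAZ W v) := by
  refine ⟨0, fun k w => ?_, fun k u => ?_⟩
  · funext b
    simp [Pool.Agent.TH131.GHC.cv]
  · simp

/-- The sums of products of Hodge classes are Hodge classes. -/
theorem hodge_of_crossSpan {Y : Coh v} {F : HAZ W v} (hF : F ∈ crossSpan per Y) :
    IsHodgeOnProduct per Y F := by
  unfold crossSpan at hF
  induction hF using Submodule.span_induction with
  | mem F hF =>
    obtain ⟨k, f, x, hf, hx, rfl⟩ := hF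
    exact cross_hodge Y hf hx
  | zero => exact hodge_zero
  | add F G _ _ hF hG => exact hodge_add hF hG
  | smul r F _ hF => exact hodge_smul r hF

/-- The component of degree zero of a Hodge class. -/
theorem hodge_deg_zero {Y : Coh v} {F : HAZ W v} (hF : IsHodgeOnProduct per Y F)
    (w : Fin 0 → W) : F 0 w ∈ HY Y := by
  obtain ⟨Φ, h1, h2⟩ := hF
  have h3 := h2 0 (fun l => per (w l))
  rw [Int.cast_zero, zero_smul, h1] at h3
  change Y.z *ᵥ cv (F 0 w) = 0
  simpa using h3

theorem integral_deg_zero {Y : Coh v} {F : HAZ W v} (hF : IsHodgeOnProduct per Y F) {j : ℕ}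
    (e : Basis (Fin 0 ⊕ Fin j) ℚ W) (β : W [⋀^Fin j]→ₗ[ℚ] ℚ) :
    fibreIntegral e F β ∈ HY Y := by
  unfold fibreIntegral
  refine Submodule.sum_mem _ fun σ _ => ?_
  exact zsmul_mem (Submodule.smul_mem _ _ (hodge_deg_zero hF _)) _

end general

variable {g v v' : ℕ} {Z Z' : Matrix (Fin g) (Fin g) ℂ} {n : ℕ}

/-- **Conjugates of Hodge classes on the product.** -/
theorem conj_main (hZ : Zᵀ = Z) (hpos : (imM Z).PosDef) (Y : Coh v) (Y' : Coh v')
    (hI : Indep (DZ Z) Y.z) : ConjReducesToY (powPer Z n) (powPer Z' n) Y Y' := by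
  intro C
  have key0 : ConjOn Y Y' C.relY → ∀ F ∈ crossSpan (powPer Z n) Y,
      ∃ F' ∈ crossSpan (powPer Z' n) Y', (F, F') ∈ C.relP := by
    intro hY F h1
    unfold crossSpan at h1
    induction h1 using Submodule.span_induction with
    | mem F hF =>
      obtain ⟨k, f, x, hf, hx, rfl⟩ := hF
      obtain ⟨f', hf', hff⟩ := C.deligne k f hf
      obtain ⟨x', hx', hxx⟩ := hY x hx
      exact ⟨cross f' x', Submodule.subset_span ⟨k, f', x', hf', hx', rfl⟩,
        C.cross_mem k f f' x x' hf hf' hff hxx⟩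
    | zero => exact ⟨0, Submodule.zero_mem _, Submodule.zero_mem _⟩
    | add F G _ _ hF hG =>
      obtain ⟨F', hF', hFF⟩ := hF
      obtain ⟨G', hG', hGG⟩ := hG
      exact ⟨F' + G', Submodule.add_mem _ hF' hG', Submodule.add_mem _ hFF hGG⟩
    | smul r F _ hF =>
      obtain ⟨F', hF', hFF⟩ := hF
      exact ⟨r • F', Submodule.smul_mem _ _ hF', Submodule.smul_mem _ _ hFF⟩
  have key : ConjOn Y Y' C.relY →
      ConjAreProducts (powPer Z n) (powPer Z' n) Y Y' C.relP := fun hY F hF =>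
    have h1 := mem_crossSpan hZ hpos Y hI hF
    ⟨h1, key0 hY F h1⟩
  refine ⟨⟨fun h x hx => ?_, fun h F hF => ?_⟩, key⟩
  · obtain ⟨F', hF', hFF⟩ := h _ (cross_one_hodge (Z := Z) (n := n) Y hx)
    obtain ⟨e, β, hβ, hne⟩ := exists_top hZ hpos n
    obtain ⟨β', hβ', hββ⟩ := C.deligne _ β hβ
    obtain ⟨r, hr⟩ := C.integral_mem _ _ e e
    have h2 := hr _ F' β β' hFF hβ hβ' hββ
    rw [fibreIntegral_cross] at h2
    have h3 := C.relY.smul_mem (wedgeW (oneA g n) β e)⁻¹ h2
    refine ⟨(wedgeW (oneA g n) β e)⁻¹ • r • fibreIntegral e F' β',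
      (HY Y').smul_mem _ ((HY Y').smul_mem _ (integral_deg_zero hF' e β')), ?_⟩
    rwa [Prod.smul_mk, smul_smul, inv_mul_cancel₀ hne, one_smul] at h3
  · obtain ⟨-, F', hF', hFF⟩ := key h F hF
    exact ⟨F', hodge_of_crossSpan hF', hFF⟩

end

end Pool.Agent.R913.Ind
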