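import Mathlib
import Pool.Agent.R913.Ind.Main
import Pool.Agent.TH504.VL.VG

/-!
# Families of abelian varieties which move in all parts
-/

set_option autoImplicit false
set_option linter.unusedSectionVars false

namespace Pool.Agent.R913.Ind

open scoped ComplexOrder
open Matrix Module Pool.Agent.H204R3.SP Pool.Agent.H204R3.CM Pool.Agent.W437.HC
  Pool.Agent.W437.HD Pool.Agent.W437.HP Pool.Agent.W437.HR Pool.Agent.W548.Odd
  Pool.Agent.TH131.GHC

noncomputable section

section pos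

variable {B : Type*} [Fintype B] [DecidableEq B] {D D' : Matrix B B ℂ}

/-- The value of the hermitian form. -/
theorem form_eq (h : PolH D) (v : B → ℂ) :
    v ⬝ᵥ (h.O *ᵥ (D *ᵥ (fun i => starRingEnd ℂ (v i)))) =
      (-Complex.I) * (((uI h)ᵀ *ᵥ v) ⬝ᵥ star ((uI h)ᵀ *ᵥ v)) := by
  have h1 : h.O * D = (-Complex.I) • (uI h * (uI h)ᵀ) := by
    have h2 : h.O * D = h.O * ((-Complex.I) • JC h) := congrArg (fun M => h.O * M) (D_eq h)
    rw [h2, Matrix.mul_smul, OJ]
  rw [mulVec_mulVec, h1, smul_mulVec, dotProduct_smul, smul_eq_mul]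
  congr 1
  rw [← mulVec_mulVec, dotProduct_mulVec, ← mulVec_transpose]
  congr 1
  funext i
  have h4 := uI_cj h
  simp only [mulVec, dotProduct, Pi.star_apply, transpose_apply, star_sum, star_mul']
  refine Finset.sum_congr rfl fun j _ => ?_
  have h5 := congrFun (congrFun h4 j) i
  simp only [cj, Matrix.map_apply] at h5
  rw [show star (uI h j i) = uI h j i from h5]
  rfl

/-- Two Hodge operators with the same polarization are not opposite on any vector. -/
theorem pos_opp (h : PolH D) (h' : PolH D') (hO : h.O = h'.O) {v : B → ℂ}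
    (hv : D' *ᵥ v = -(D *ᵥ v)) : v = 0 := by
  have hc : D' *ᵥ (fun i => starRingEnd ℂ (v i)) = -(D *ᵥ (fun i => starRingEnd ℂ (v i))) := by
    have e : ∀ (M : Matrix B B ℂ), (fun i => starRingEnd ℂ ((M *ᵥ v) i)) =
        cj M *ᵥ (fun i => starRingEnd ℂ (v i)) := by
      intro M
      funext i
      simp [mulVec, dotProduct, cj, map_sum]
    have h1 : (fun i => starRingEnd ℂ ((D' *ᵥ v) i)) =
        fun i => starRingEnd ℂ ((-(D *ᵥ v)) i) := by rw [hv]
    have h2 : (fun i => starRingEnd ℂ ((-(D *ᵥ v)) i)) =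
        -(fun i => starRingEnd ℂ ((D *ᵥ v) i)) := by
      funext i
      simp
    rw [h2, e, e, D_cj h', D_cj h, neg_mulVec, neg_mulVec, neg_neg] at h1
    rw [← h1, neg_neg]
  have h1 := form_eq h v
  have h2 := form_eq h' v
  rw [hc, mulVec_neg, dotProduct_neg, ← hO, h1] at h2
  have h3 : ((uI h)ᵀ *ᵥ v) ⬝ᵥ star ((uI h)ᵀ *ᵥ v) +
      ((uI h')ᵀ *ᵥ v) ⬝ᵥ star ((uI h')ᵀ *ᵥ v) = 0 := by
    have h4 : (-Complex.I) * (((uI h)ᵀ *ᵥ v) ⬝ᵥ star ((uI h)ᵀ *ᵥ v) +
      ((uI h')ᵀ *ᵥ v) ⬝ᵥ star ((uI h')ᵀ *ᵥ v)) = 0 := by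
      rw [mul_add, ← h2, add_neg_cancel]
    exact (mul_eq_zero.1 h4).resolve_left (by simp)
  have h4 : ((uI h)ᵀ *ᵥ v) ⬝ᵥ star ((uI h)ᵀ *ᵥ v) = 0 :=
    ((add_eq_zero_iff_of_nonneg (dotProduct_self_star_nonneg _)
      (dotProduct_self_star_nonneg _)).1 h3).1
  rw [dotProduct_self_star_eq_zero] at h4
  have h5 : (uC h)ᵀ *ᵥ ((uI h)ᵀ *ᵥ v) = v := by
    rw [mulVec_mulVec, ← transpose_mul, uI_uC, transpose_one, one_mulVec]
  rw [← h5, h4, mulVec_zero]

end pos

section stable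

variable {B : Type*} [Fintype B] [DecidableEq B] {C : Type*} [Fintype C] [DecidableEq C]
  {κ : Type*} [Fintype κ] [DecidableEq κ] {D : Matrix B B ℂ} {D' : Matrix C C ℂ}

/-- A rational subspace which is stable under the sums of the Hodge operators for a family `N` of
Hodge operators is stable under the first Hodge operator of a very general member `D`, if no part
of the family is constant. -/
theorem stable_of_parts (h : PolH D) (hb : ∀ c : Matrix B B ℚ, Central D c →
      trace (qc c * D) = 0)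
    {N : Set (Matrix B B ℂ)} (hN : ∀ D₁ ∈ N, ∃ h' : PolH D₁, h'.O = h.O)
    (hlie : ∀ D₁ ∈ N, D₁ ∈ lieM D ℂ)
    (hpart : ∀ e ∈ CenSpan D, e * e = e → (∀ D₁ ∈ N, e * D₁ = e * D) → e = 0)
    {V : Submodule ℚ ((κ → B) × C → ℚ)}
    (hV : ∀ z ∈ cxX V, opD κ C D z + opW κ B D' z ∈ cxX V)
    (hVN : ∀ D₁ ∈ N, ∀ z ∈ cxX V, opD κ C D₁ z + opW κ B D' z ∈ cxX V) :
    ∀ z ∈ cxX V, opD κ C D z ∈ cxX V := by
  have hk : GalD D (stb D V) := stb_galD hV
  have hc' := h.cmpl_galD hk
  obtain ⟨D1, hD1, hD2⟩ := h.cmpl_sum hk (D_mem D)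
  have hb' := trace_Cen hb
  obtain ⟨c, hc, hcD⟩ := exists_cut' h hk hb' hD1 hD2
  subst hcD
  have hidem := cut_idem h hk hb' hc hD1 hD2
  have he2 : (1 - c) * D = D - c * D := by rw [sub_mul, one_mul]
  have heC : 1 - c ∈ Cen D := Submodule.sub_mem _ Cen_one hc
  have hee : (1 - c) * (1 - c) = 1 - c := by
    rw [mul_sub, mul_one, sub_mul, one_mul, hidem, sub_self, sub_zero]
  have h0 : 1 - c = 0 := by
    refine hpart (1 - c) (Cen_le heC) hee fun D₁ hD₁ => ?_
    obtain ⟨e, he⟩ : ∃ e, e = 1 - c := ⟨_, rfl⟩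
    rw [← he] at heC hee he2 ⊢
    obtain ⟨h', hO⟩ := hN D₁ hD₁
    have hR : D₁ - D ∈ stb D V := by
      refine ⟨Submodule.sub_mem _ (hlie D₁ hD₁) (D_mem D), fun z hz => ?_⟩
      have h2 := Submodule.sub_mem _ (hVN D₁ hD₁ z hz) (hV z hz)
      have h3 : opD κ C (D₁ - D) z = opD κ C D₁ z - opD κ C D z := by
        rw [sub_eq_add_neg, opD_add, ← neg_one_smul ℂ D, opD_smul, neg_one_smul,
          ← sub_eq_add_neg]
      rw [h3]
      rwa [add_sub_add_right_eq_sub] at h2
    have h1 : (D₁ - D) * (e * D) = e * D * (D₁ - D) := by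
      rw [he2]
      exact sub_eq_zero.1 (h.cmpl_bracket hk hR hD2)
    have e1 : e * D₁ = D₁ * e := heC.1 D₁ (hlie D₁ hD₁)
    have e0 : e * D = D * e := heC.1 D (D_mem D)
    have hdd : D * D = 1 := h.dd
    have hdd' : D₁ * D₁ = 1 := h'.dd
    have h2 : e * D₁ * D = e * D * D₁ := by
      have a1 : (D₁ - D) * (e * D) = e * D₁ * D - e := by
        calc (D₁ - D) * (e * D) = (D₁ * e) * D - (D * e) * D := by noncomm_ring
          _ = (e * D₁) * D - (e * D) * D := by rw [e1, e0]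
          _ = e * D₁ * D - e := by rw [mul_assoc e D D, hdd, mul_one]
      have a2 : e * D * (D₁ - D) = e * D * D₁ - e := by
        rw [mul_sub, mul_assoc e D D, hdd, mul_one]
      rw [a1, a2] at h1
      exact sub_left_injective h1
    have h3 : D₁ * (e * (D₁ - D)) = -(D * (e * (D₁ - D))) := by
      have a1 : D₁ * (e * (D₁ - D)) = e - e * D₁ * D := by
        calc D₁ * (e * (D₁ - D)) = (D₁ * e) * D₁ - (D₁ * e) * D := by noncomm_ring
          _ = (e * D₁) * D₁ - (e * D₁) * D := by rw [e1]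
          _ = e - e * D₁ * D := by rw [mul_assoc e D₁ D₁, hdd', mul_one]
      have a2 : D * (e * (D₁ - D)) = e * D * D₁ - e := by
        calc D * (e * (D₁ - D)) = (D * e) * D₁ - (D * e) * D := by noncomm_ring
          _ = (e * D) * D₁ - (e * D) * D := by rw [e0]
          _ = e * D * D₁ - e := by rw [mul_assoc e D D, hdd, mul_one]
      rw [a1, a2, h2, neg_sub]
    have h4 : e * (D₁ - D) = 0 := by
      ext i j
      have h5 : (fun i => (e * (D₁ - D)) i j) = 0 := by
        refine pos_opp h h' hO.symm ?_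
        funext i
        have h6 := congrFun (congrFun h3 i) j
        exact h6
      exact congrFun h5 i
    rw [mul_sub, sub_eq_zero] at h4
    exact h4
  have h1 : c = 1 := (sub_eq_zero.1 h0).symm
  rw [h1, one_mul] at hD1
  exact hD1.2

end stable

end

end Pool.Agent.R913.Ind
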