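import Mathlib
import Pool.Agent.R913.Ind.Mov
import Pool.Agent.R913.Ind.Conj

/-!
# Hodge classes on the product of a family of abelian varieties and a family of varieties
-/

set_option autoImplicit false
set_option linter.unusedSectionVars false

namespace Pool.Agent.R913.Ind

open Matrix Module Pool.Agent.H204R3.SP Pool.Agent.H204R3.CM Pool.Agent.H194R3.CM
  Pool.Agent.W437.HC Pool.Agent.W437.HD Pool.Agent.W437.HP Pool.Agent.W437.HR
  Pool.Agent.W548.Odd Pool.Agent.TH131.GHC Pool.Agent.TH504.VL Pool.Agent.TH504.VY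

noncomputable section

section defs

variable {g d : ℕ}

/-- The rational matrix `u` is an endomorphism (up to isogeny) of all members of the family `Z` of
principally polarized abelian varieties over `U`. -/
def FamEnd (U : Set (Fin d → ℂ)) (Z : (Fin d → ℂ) → Matrix (Fin g) (Fin g) ℂ)
    (u : Matrix (Fin g ⊕ Fin g) (Fin g ⊕ Fin g) ℚ) : Prop :=
  ∀ t ∈ U, qc u * DZ (Z t) = DZ (Z t) * qc u

/-- `c` is in the centre of the algebra of the endomorphisms of the family. -/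
def FamCentral (U : Set (Fin d → ℂ)) (Z : (Fin d → ℂ) → Matrix (Fin g) (Fin g) ℂ)
    (c : Matrix (Fin g ⊕ Fin g) (Fin g ⊕ Fin g) ℚ) : Prop :=
  FamEnd U Z c ∧ ∀ u, FamEnd U Z u → c * u = u * c

/-- The complexification of the centre. -/
def FamCenSpan (U : Set (Fin d → ℂ)) (Z : (Fin d → ℂ) → Matrix (Fin g) (Fin g) ℂ) :
    Submodule ℂ (Matrix (Fin g ⊕ Fin g) (Fin g ⊕ Fin g) ℂ) :=
  Submodule.span ℂ {X | ∃ c, FamCentral U Z c ∧ X = qc c}

/-- `Z` is a holomorphic family of period matrices over `U` with a semisimple Hodge group (the traces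
of the products of the Hodge operators and the central endomorphisms of the family are zero) which
moves in all parts: for no idempotent `e ≠ 0` in the complexification of the centre the product of
`e` and the Hodge operator is constant. -/
structure MovesInAllParts (U : Set (Fin d → ℂ)) (Z : (Fin d → ℂ) → Matrix (Fin g) (Fin g) ℂ) :
    Prop where
  hol : ∀ i j, AnalyticOnNhd ℂ (fun t => Z t i j) U
  period : ∀ t ∈ U, (Z t).transpose = Z t ∧ ((Z t).map Complex.im).PosDef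
  semisimple : ∀ c, FamCentral U Z c → ∀ t ∈ U, trace (qc c * DZ (Z t)) = 0
  moves : ∀ e ∈ FamCenSpan U Z, e * e = e → e ≠ 0 →
    ∃ s ∈ U, ∃ t ∈ U, e * DZ (Z s) ≠ e * DZ (Z t)

end defs

section coord

variable {g n v k : ℕ} {Z : Matrix (Fin g) (Fin g) ℂ}

/-- The coordinates of a form with values. -/
def cfN (σ : Fin k → Fin n) (f : (Fin n → (Fin g ⊕ Fin g → ℚ)) [⋀^Fin k]→ₗ[ℚ] (Fin v → ℚ)) :
    (Fin k → Fin g ⊕ Fin g) × Fin v → ℚ :=
  fun p => f (fun l => Pi.single (σ l) (Pi.single (p.1 l) 1)) p.2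

theorem cfC_eq (hpos : (imM Z).PosDef) (σ : Fin k → Fin n)
    (f : (Fin n → (Fin g ⊕ Fin g → ℚ)) [⋀^Fin k]→ₗ[ℚ] (Fin v → ℚ)) :
    (framePow hpos n).cfC σ f = cfN σ f := rfl

theorem polOf_O (hZ : Zᵀ = Z) (hpos : (imM Z).PosDef) : (polOf hZ hpos).O = qc (Om g ℚ) := rfl

end coord

section point

variable {g d : ℕ} {U : Set (Fin d → ℂ)} {Z : (Fin d → ℂ) → Matrix (Fin g) (Fin g) ℂ}

/-- There is a very general point. -/
theorem exists_vg (hU : IsOpen U) (hc : IsPreconnected U) (hne : U.Nonempty)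
    (h : MovesInAllParts U Z) : ∃ t₀ ∈ U, ∀ s ∈ U, DZ (Z s) ∈ lieM (DZ (Z t₀)) ℂ := by
  obtain ⟨T, hT, f, hf, hfs, hft⟩ := vg_functions Z h.hol
    (fun t ht => ((h.period t ht).2).isUnit.map Matrix.detMonoidHom)
  obtain ⟨t₀, ht₀, hF⟩ := exists_point hU hc hne f hf hfs
  exact ⟨t₀, ht₀, hft t₀ ht₀ hF⟩

variable {t₀ : Fin d → ℂ}

theorem famEnd_iff (h : MovesInAllParts U Z) (ht₀ : t₀ ∈ U)
    (hlie : ∀ s ∈ U, DZ (Z s) ∈ lieM (DZ (Z t₀)) ℂ)
    (u : Matrix (Fin g ⊕ Fin g) (Fin g ⊕ Fin g) ℚ) :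
    FamEnd U Z u ↔ qc u * DZ (Z t₀) = DZ (Z t₀) * qc u :=
  ⟨fun hu => hu t₀ ht₀, fun hu s hs =>
    comm_lie (polOf (h.period t₀ ht₀).1 (h.period t₀ ht₀).2) hu (hlie s hs)⟩

theorem famCentral_iff (h : MovesInAllParts U Z) (ht₀ : t₀ ∈ U)
    (hlie : ∀ s ∈ U, DZ (Z s) ∈ lieM (DZ (Z t₀)) ℂ)
    (c : Matrix (Fin g ⊕ Fin g) (Fin g ⊕ Fin g) ℚ) :
    Central (DZ (Z t₀)) c ↔ FamCentral U Z c := by
  unfold Central FamCentral
  rw [famEnd_iff h ht₀ hlie]
  refine and_congr_right fun _ => forall_congr' fun u => ?_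
  rw [famEnd_iff h ht₀ hlie]

/-- A rational subspace which is stable for all members is stable under the first Hodge operator. -/
theorem fam_stable (h : MovesInAllParts U Z) (ht₀ : t₀ ∈ U)
    (hlie : ∀ s ∈ U, DZ (Z s) ∈ lieM (DZ (Z t₀)) ℂ) {v : ℕ} {D' : Matrix (Fin v) (Fin v) ℂ}
    {k : ℕ} {V : Submodule ℚ ((Fin k → Fin g ⊕ Fin g) × Fin v → ℚ)}
    (hV : ∀ s ∈ U, ∀ z ∈ cxX V, opD (Fin k) (Fin v) (DZ (Z s)) z +
      opW (Fin k) (Fin g ⊕ Fin g) D' z ∈ cxX V) :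
    ∀ z ∈ cxX V, opD (Fin k) (Fin v) (DZ (Z t₀)) z ∈ cxX V := by
  refine stable_of_parts (polOf (h.period t₀ ht₀).1 (h.period t₀ ht₀).2)
    (fun c hc => h.semisimple c ((famCentral_iff h ht₀ hlie c).1 hc) t₀ ht₀)
    (N := {M | ∃ s ∈ U, M = DZ (Z s)}) ?_ ?_ ?_ (hV t₀ ht₀) ?_
  · rintro _ ⟨s, hs, rfl⟩
    exact ⟨polOf (h.period s hs).1 (h.period s hs).2,
      (polOf_O _ _).trans (polOf_O _ _).symm⟩
  · rintro _ ⟨s, hs, rfl⟩
    exact hlie s hs
  · intro e he hee hcon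
    by_contra hne
    obtain ⟨s, hs, t, ht, hst⟩ := h.moves e (by
      unfold CenSpan at he
      unfold FamCenSpan
      refine Submodule.span_mono ?_ he
      rintro _ ⟨c, hc, rfl⟩
      exact ⟨c, (famCentral_iff h ht₀ hlie c).1 hc, rfl⟩) hee hne
    exact hst ((hcon _ ⟨s, hs, rfl⟩).trans (hcon _ ⟨t, ht, rfl⟩).symm)
  · rintro _ ⟨s, hs, rfl⟩
    exact hV s hs

variable {v n : ℕ}

theorem fam_opD_zero (h : MovesInAllParts U Z) (ht₀ : t₀ ∈ U)
    (hlie : ∀ s ∈ U, DZ (Z s) ∈ lieM (DZ (Z t₀)) ℂ) (V : Coh v)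
    {F : HAZ (Fin n → (Fin g ⊕ Fin g → ℚ)) v}
    (hF : ∀ t ∈ U, IsHodgeOnProduct (perProd (fun _ : Fin n => Z t)) V F) (k : ℕ)
    (σ : Fin k → Fin n) :
    opD (Fin k) (Fin v) (DZ (Z t₀)) (cstX (cfN σ (F k))) = 0 := by
  refine opD_eq_zero (DZ_sq ((h.period t₀ ht₀).2.isUnit.map Matrix.detMonoidHom))
    (DZ_conj _) ?_
  refine fam_stable h ht₀ hlie (D' := V.z) ?_ _ (cstX_mem
    (Submodule.mem_span_singleton_self _))
  intro s hs z hz
  obtain ⟨r, rfl⟩ := mem_cxX_span hz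
  rw [map_smul, map_smul, ← smul_add]
  have h1 := total_zero (h.period s hs).2 V (hF s hs) k σ
  rw [cfC_eq] at h1
  rw [h1, smul_zero]
  exact Submodule.zero_mem _

theorem fam_opW_zero (h : MovesInAllParts U Z) (ht₀ : t₀ ∈ U)
    (hlie : ∀ s ∈ U, DZ (Z s) ∈ lieM (DZ (Z t₀)) ℂ) (V : Coh v)
    {F : HAZ (Fin n → (Fin g ⊕ Fin g → ℚ)) v}
    (hF : ∀ t ∈ U, IsHodgeOnProduct (perProd (fun _ : Fin n => Z t)) V F) (k : ℕ)
    (σ : Fin k → Fin n) :
    opW (Fin k) (Fin g ⊕ Fin g) V.z (cstX (cfN σ (F k))) = 0 := by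
  have h1 := total_zero (h.period t₀ ht₀).2 V (hF t₀ ht₀) k σ
  rw [cfC_eq, fam_opD_zero h ht₀ hlie V hF k σ, zero_add] at h1
  exact h1

/-- The components of a flat Hodge class are flat Hodge classes on the powers. -/
theorem fam_cmp (h : MovesInAllParts U Z) (ht₀ : t₀ ∈ U)
    (hlie : ∀ s ∈ U, DZ (Z s) ∈ lieM (DZ (Z t₀)) ℂ) (V : Coh v)
    {F : HAZ (Fin n → (Fin g ⊕ Fin g → ℚ)) v}
    (hF : ∀ t ∈ U, IsHodgeOnProduct (perProd (fun _ : Fin n => Z t)) V F) (k : ℕ)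
    (b : Fin v) {t : Fin d → ℂ} (ht : t ∈ U) :
    IsHodge (perProd (fun _ : Fin n => Z t)) (cmp b (F k)) := by
  have hpos := (h.period t ht).2
  refine isHodge_of_cf (framePow hpos n) (D := DZ (Z t)) rfl
    (JR_sq (hpos.isUnit.map Matrix.detMonoidHom)) fun σ => ?_
  have h1 := total_zero hpos V (hF t ht) k σ
  have h2 := fam_opW_zero h ht₀ hlie V hF k σ
  rw [cfC_eq, h2, add_zero] at h1
  have h4 := congrArg (sl b) h1
  rw [sl_opD, map_zero] at h4
  exact h4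

/-- The values of a flat Hodge class are Hodge classes. -/
theorem fam_value (h : MovesInAllParts U Z) (ht₀ : t₀ ∈ U)
    (hlie : ∀ s ∈ U, DZ (Z s) ∈ lieM (DZ (Z t₀)) ℂ) (V : Coh v)
    {F : HAZ (Fin n → (Fin g ⊕ Fin g → ℚ)) v}
    (hF : ∀ t ∈ U, IsHodgeOnProduct (perProd (fun _ : Fin n => Z t)) V F) (k : ℕ)
    (w : Fin k → (Fin n → (Fin g ⊕ Fin g → ℚ))) : F k w ∈ HY V := by
  have hpos := (h.period t₀ ht₀).2
  have h2 : ∀ (σ : Fin k → Fin n) (I : Fin k → Fin g ⊕ Fin g),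
      F k (fun l => Pi.single (σ l) (Pi.single (I l) 1)) ∈ HY V := by
    intro σ I
    have h1 := fam_opW_zero h ht₀ hlie V hF k σ
    change V.z *ᵥ cv (F k (fun l => Pi.single (σ l) (Pi.single (I l) 1))) = 0
    funext b
    have h3 := congrFun h1 (I, b)
    rw [opW_apply] at h3
    exact h3
  have h3 : F k w = ∑ σ : Fin k → Fin n, ∑ I : Fin k → Fin g ⊕ Fin g,
      (∏ l, w l (σ l) (I l)) • F k (fun l => Pi.single (σ l) (Pi.single (I l) 1)) := by
    funext b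
    have h4 := (framePow hpos n).expand (cmp b (F k)) w
    have h5 : (cmp b (F k)) w = F k w b := rfl
    rw [← h5, h4, Finset.sum_apply]
    refine Finset.sum_congr rfl fun σ _ => ?_
    rw [Finset.sum_apply]
    refine Finset.sum_congr rfl fun I _ => ?_
    rw [Pi.smul_apply, smul_eq_mul, mul_comm]
    rfl
  rw [h3]
  exact Submodule.sum_mem _ fun σ _ => Submodule.sum_mem _ fun I _ =>
    Submodule.smul_mem _ _ (h2 σ I)

end point

section base

variable {B : Type} {g v n : ℕ}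

/-- Through each point `b` of `B` there is a connected complex manifold (an open set `U` of a space
`ℂ ^ d`, mapped to `B`) along which the Hodge structure of the family `Y` is constant and the family
`Z` of abelian varieties moves in all parts. -/
def MovesRelativeTo (Z : B → Matrix (Fin g) (Fin g) ℂ) (Y : B → Coh v) : Prop :=
  ∀ b, ∃ (d : ℕ) (U : Set (Fin d → ℂ)) (φ : (Fin d → ℂ) → B), IsOpen U ∧ IsPreconnected U ∧
    b ∈ φ '' U ∧ (∀ t ∈ U, (Y (φ t)).z = (Y b).z) ∧ MovesInAllParts U (fun t => Z (φ t))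

variable {Z : B → Matrix (Fin g) (Fin g) ℂ} {Y : B → Coh v}

theorem base_cmp (hm : MovesRelativeTo Z Y) {F : HAZ (Fin n → (Fin g ⊕ Fin g → ℚ)) v}
    (hF : ∀ b, IsHodgeOnProduct (perProd (fun _ : Fin n => Z b)) (Y b) F) (k : ℕ)
    (x : Fin v) (b : B) : IsHodge (perProd (fun _ : Fin n => Z b)) (cmp x (F k)) := by
  obtain ⟨d, U, φ, hU, hc, ⟨t, ht, rfl⟩, hY, hp⟩ := hm b
  obtain ⟨t₀, ht₀, hlie⟩ := exists_vg hU hc ⟨t, ht⟩ hp
  refine fam_cmp hp ht₀ hlie (Y (φ t)) (fun s hs => ?_) k x ht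
  obtain ⟨Φ, h1, h2⟩ := hF (φ s)
  exact ⟨Φ, h1, hasType_congr (hY s hs) h2⟩

theorem base_value (hm : MovesRelativeTo Z Y) {F : HAZ (Fin n → (Fin g ⊕ Fin g → ℚ)) v}
    (hF : ∀ b, IsHodgeOnProduct (perProd (fun _ : Fin n => Z b)) (Y b) F) (k : ℕ)
    (w : Fin k → (Fin n → (Fin g ⊕ Fin g → ℚ))) (b : B) : F k w ∈ HY (Y b) := by
  obtain ⟨d, U, φ, hU, hc, ⟨t, ht, rfl⟩, hY, hp⟩ := hm b
  obtain ⟨t₀, ht₀, hlie⟩ := exists_vg hU hc ⟨t, ht⟩ hp
  refine fam_value hp ht₀ hlie (Y (φ t)) (fun s hs => ?_) k w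
  obtain ⟨Φ, h1, h2⟩ := hF (φ s)
  exact ⟨Φ, h1, hasType_congr (hY s hs) h2⟩

theorem base_integral (hm : MovesRelativeTo Z Y) {F : HAZ (Fin n → (Fin g ⊕ Fin g → ℚ)) v}
    (hF : ∀ b, IsHodgeOnProduct (perProd (fun _ : Fin n => Z b)) (Y b) F) {k j : ℕ}
    (e : Basis (Fin k ⊕ Fin j) ℚ (Fin n → (Fin g ⊕ Fin g → ℚ)))
    (β : (Fin n → (Fin g ⊕ Fin g → ℚ)) [⋀^Fin j]→ₗ[ℚ] ℚ) (b : B) :
    fibreIntegral e F β ∈ HY (Y b) := by
  unfold fibreIntegral
  refine Submodule.sum_mem _ fun σ _ => ?_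
  exact zsmul_mem (Submodule.smul_mem _ _ (base_value hm hF k _ b)) _

/-- The members of the family are principally polarized abelian varieties. -/
theorem base_period (hm : MovesRelativeTo Z Y) (b : B) : (Z b)ᵀ = Z b ∧ (imM (Z b)).PosDef := by
  obtain ⟨d, U, φ, hU, hc, ⟨t, ht, rfl⟩, hY, hp⟩ := hm b
  exact hp.period t ht

theorem mem_HH_iff' (hpos : ∀ b, (imM (Z b)).PosDef) {k : ℕ}
    (f : (Fin n → (Fin g ⊕ Fin g → ℚ)) [⋀^Fin k]→ₗ[ℚ] ℚ) :
    f ∈ HH (EE (fun _ : Fin n => g)) (fun b => DZ (bigD ℂ (fun _ : Fin n => Z b))) k ↔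
      ∀ b, IsHodge (perProd (fun _ : Fin n => Z b)) f := by
  have hb := fun b => imM_bigD_posDef (fun _ : Fin n => Z b) (fun _ => hpos b)
  constructor
  · intro hf b
    refine isHodge_of_cf (frame1 (fun _ : Fin n => Z b) (fun _ => hpos b))
      (D := DZ (bigD ℂ (fun _ : Fin n => Z b)))
      rfl (JR_sq ((hb b).isUnit.map Matrix.detMonoidHom)) fun σ => ?_
    exact hf b
  · intro hf b
    exact Pool.Agent.TH504.CB.isH_cf (frame1 (fun _ : Fin n => Z b) (fun _ => hpos b))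
      (D := DZ (bigD ℂ (fun _ : Fin n => Z b))) rfl (hf b) (fun _ => ())

/-- **The reproducing property.** -/
theorem base_integrals [Nonempty B] (hm : MovesRelativeTo Z Y)
    {F : HAZ (Fin n → (Fin g ⊕ Fin g → ℚ)) v}
    (hF : ∀ b, IsHodgeOnProduct (perProd (fun _ : Fin n => Z b)) (Y b) F)
    {P : Submodule ℚ (HAZ (Fin n → (Fin g ⊕ Fin g → ℚ)) v)}
    (hP : ∀ (k j : ℕ) (e : Basis (Fin k ⊕ Fin j) ℚ (Fin n → (Fin g ⊕ Fin g → ℚ)))
      (f : (Fin n → (Fin g ⊕ Fin g → ℚ)) [⋀^Fin k]→ₗ[ℚ] ℚ)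
      (β : (Fin n → (Fin g ⊕ Fin g → ℚ)) [⋀^Fin j]→ₗ[ℚ] ℚ),
      (∀ b, IsHodge (perProd (fun _ : Fin n => Z b)) f) →
      (∀ b, IsHodge (perProd (fun _ : Fin n => Z b)) β) →
        cross f (fibreIntegral e F β) ∈ P) : F ∈ P := by
  classical
  have hZ := fun b => (base_period hm b).1
  have hpos := fun b => (base_period hm b).2
  obtain ⟨N, hN⟩ : ∃ N, N = Fintype.card (Fin (NB (fun _ : Fin n => g)) ⊕
    Fin (NB (fun _ : Fin n => g))) := ⟨_, rfl⟩
  have hdim : finrank ℚ (Fin n → (Fin g ⊕ Fin g → ℚ)) = N := by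
    rw [hN]
    exact finrank_eq_card_basis (basisP (fun _ : Fin n => g))
  have hbig : ∀ k, N < k → F k = 0 := by
    intro k hk
    refine AlternatingMap.ext fun w => ?_
    refine (F k).map_linearDependent w fun hw => ?_
    have h1 := hw.fintype_card_le_finrank
    rw [Fintype.card_fin, hdim] at h1
    omega
  have hsum : F = ∑ k ∈ Finset.range (N + 1),
      (Pi.single k (F k) : HAZ (Fin n → (Fin g ⊕ Fin g → ℚ)) v) := by
    funext k
    rw [Finset.sum_apply]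
    by_cases hk : k ∈ Finset.range (N + 1)
    · rw [Finset.sum_eq_single k]
      · rw [Pi.single_eq_same]
      · intro l _ hl
        exact Pi.single_eq_of_ne (Ne.symm hl) _
      · intro h0
        exact absurd hk h0
    · rw [Finset.sum_eq_zero]
      · refine hbig k ?_
        rw [Finset.mem_range] at hk
        omega
      · intro l hl
        refine Pi.single_eq_of_ne ?_ _
        rintro rfl
        exact hk hl
  rw [hsum]
  refine Submodule.sum_mem _ fun k hk => ?_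
  rw [Finset.mem_range] at hk
  have hkN : k + (N - k) = Fintype.card (Fin (NB (fun _ : Fin n => g)) ⊕
    Fin (NB (fun _ : Fin n => g))) := by omega
  have hq : Fintype.card (Fin (NB (fun _ : Fin n => g)) ⊕ Fin (NB (fun _ : Fin n => g))) =
      Fintype.card (Fin k ⊕ Fin (N - k)) := by
    rw [Fintype.card_sum (α := Fin k), Fintype.card_fin, Fintype.card_fin, hkN]
  let e : Basis (Fin k ⊕ Fin (N - k)) ℚ (Fin n → (Fin g ⊕ Fin g → ℚ)) :=
    (basisP (fun _ : Fin n => g)).reindex (Fintype.equivOfCardEq hq)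
  refine reproduce (X := B) (EE (fun _ : Fin n => g))
    (fun b => polOf (bigD_symm (fun _ : Fin n => hZ b)) (imM_bigD_posDef _ (fun _ => hpos b)))
    (fun x y => (polOf_Om _ _).trans (polOf_Om _ _).symm) (fun {κ} _ _ f hf => cfE_inj f hf)
    hkN e F (fun x => (mem_HH_iff' hpos _).2 fun b => base_cmp hm hF k x b) fun f hf β hβ => ?_
  exact hP k _ e f β ((mem_HH_iff' hpos _).1 hf) ((mem_HH_iff' hpos _).1 hβ)

end base

end

end Pool.Agent.R913.Ind
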