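import Mathlib
import Pool.Agent.R913.Ind.Fam

/-!
# The variational Hodge conjecture for the product of a family of abelian varieties and a family of
varieties
-/

set_option autoImplicit false
set_option linter.unusedSectionVars false

namespace Pool.Agent.R913.Ind

open Matrix Module Pool.Agent.H204R3.CM Pool.Agent.H194R3.CM
  Pool.Agent.W437.HC Pool.Agent.W437.HD Pool.Agent.W437.HP
  Pool.Agent.TH131.GHC Pool.Agent.TH504.VY

noncomputable section

section defs

variable {B W T : Type} [AddCommGroup W] [Module ℚ W] [AddCommGroup T] [Module ℂ T] {v : ℕ}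

/-- The span of the products `f ⊗ x` of a class `f` which is a Hodge class on all members `A_b` of the
family of complex tori and a class `x` which is a Hodge class on all members `Y_b`. -/
def flatSpan (per : B → W →+ T) (Y : B → Coh v) : Submodule ℚ (HAZ W v) :=
  Submodule.span ℚ {G | ∃ (k : ℕ) (f : W [⋀^Fin k]→ₗ[ℚ] ℚ) (x : Fin v → ℚ),
    (∀ b, IsHodge (per b) f) ∧ (∀ b, IsHodgeOn (Y b) x) ∧ G = cross f x}

/-- Every flat class which is a Hodge class on all `A_b × Y_b` is a sum of products of flat classes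
which are Hodge classes on all `A_b` and on all `Y_b`. -/
def FlatAreProducts (per : B → W →+ T) (Y : B → Coh v) : Prop :=
  ∀ F, (∀ b, IsHodgeOnProduct (per b) (Y b) F) → F ∈ flatSpan per Y

/-- The exterior product of a class which is a Hodge class on all `A_b` and a class in `algY b` is in
`alg b`. -/
def FlatCross (per : B → W →+ T) (alg : B → Submodule ℚ (HAZ W v))
    (algY : B → Submodule ℚ (Fin v → ℚ)) : Prop :=
  ∀ (b : B) (k : ℕ) (f : W [⋀^Fin k]→ₗ[ℚ] ℚ), (∀ b', IsHodge (per b') f) →
    ∀ x ∈ algY b, cross f x ∈ alg b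

/-- The direct image on `Y_b` of the product of a class in `alg b` and a class which is a Hodge class on
all `A_b` is in `algY b`. -/
def FlatIntegral (per : B → W →+ T) (alg : B → Submodule ℚ (HAZ W v))
    (algY : B → Submodule ℚ (Fin v → ℚ)) : Prop :=
  ∀ (b : B), ∀ F ∈ alg b, ∀ (k j : ℕ) (e : Basis (Fin k ⊕ Fin j) ℚ W)
    (β : W [⋀^Fin j]→ₗ[ℚ] ℚ), (∀ b', IsHodge (per b') β) → fibreIntegral e F β ∈ algY b

/-- The spans `alg b` and `algY b` of the classes of algebraic cycles on `A_b × Y_b` and `Y_b`, for a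
family of abelian varieties for which the flat Hodge classes are algebraic on all members, with two
of their properties. -/
structure FamilyCycles (per : B → W →+ T) (v : ℕ) where
  /-- the algebraic classes on `A_b × Y_b` -/
  alg : B → Submodule ℚ (HAZ W v)
  /-- the algebraic classes on `Y_b` -/
  algY : B → Submodule ℚ (Fin v → ℚ)
  cross_mem : FlatCross per alg algY
  integral_mem : FlatIntegral per alg algY

/-- The variational Hodge conjecture for the family of the products `A_b × Y_b` is equivalent to the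
variational Hodge conjecture for the family `Y`. -/
def VariationalReducesToY (per : B → W →+ T) (Y : B → Coh v) : Prop :=
  ∀ C : FamilyCycles per v, Variational (fun b => IsHodgeOnProduct (per b) (Y b)) C.alg ↔
    Variational (fun b => IsHodgeOn (Y b)) C.algY

end defs

variable {B : Type} {g v : ℕ} {Z : B → Matrix (Fin g) (Fin g) ℂ} {Y : B → Coh v}

theorem exists_top_fam [Nonempty B] (hZ : ∀ b, (Z b)ᵀ = Z b) (hpos : ∀ b, (imM (Z b)).PosDef)
    (n : ℕ) :
    ∃ (e : Basis (Fin 0 ⊕ Fin (finrank ℚ (Fin n → (Fin g ⊕ Fin g → ℚ)))) ℚ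
      (Fin n → (Fin g ⊕ Fin g → ℚ)))
      (β : (Fin n → (Fin g ⊕ Fin g → ℚ)) [⋀^Fin (finrank ℚ
        (Fin n → (Fin g ⊕ Fin g → ℚ)))]→ₗ[ℚ] ℚ),
      (∀ b, IsHodge (powPer (Z b) n) β) ∧ wedgeW (oneA g n) β e ≠ 0 := by
  classical
  have hdim : finrank ℚ (Fin n → (Fin g ⊕ Fin g → ℚ)) =
      Fintype.card (Fin (NB (fun _ : Fin n => g)) ⊕ Fin (NB (fun _ : Fin n => g))) :=
    finrank_eq_card_basis (basisP (fun _ : Fin n => g))
  have hkN : 0 + finrank ℚ (Fin n → (Fin g ⊕ Fin g → ℚ)) =
      Fintype.card (Fin (NB (fun _ : Fin n => g)) ⊕ Fin (NB (fun _ : Fin n => g))) := by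
    rw [zero_add, hdim]
  have hq : Fintype.card (Fin (NB (fun _ : Fin n => g)) ⊕ Fin (NB (fun _ : Fin n => g))) =
      Fintype.card (Fin 0 ⊕ Fin (finrank ℚ (Fin n → (Fin g ⊕ Fin g → ℚ)))) := by
    rw [Fintype.card_sum (α := Fin 0), Fintype.card_fin, Fintype.card_fin, hkN]
  let e : Basis (Fin 0 ⊕ Fin (finrank ℚ (Fin n → (Fin g ⊕ Fin g → ℚ)))) ℚ
      (Fin n → (Fin g ⊕ Fin g → ℚ)) :=
    (basisP (fun _ : Fin n => g)).reindex (Fintype.equivOfCardEq hq)
  have h0 : oneA g n ≠ 0 := by
    intro h
    have h1 := congrArg (fun F => F (fun l => l.elim0)) h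
    exact one_ne_zero h1
  obtain ⟨β, hβ, hne⟩ := exists_dual (X := B) (EE (fun _ : Fin n => g))
    (fun b => polOf (bigD_symm (fun _ : Fin n => hZ b)) (imM_bigD_posDef _ (fun _ => hpos b)))
    (fun x y => (polOf_Om _ _).trans (polOf_Om _ _).symm) (fun {κ} _ _ f hf => cfE_inj f hf) hkN e
    ((mem_HH_iff' hpos _).2 (fun b => oneA_hodge (Z := Z b))) h0
  exact ⟨e, β, (mem_HH_iff' hpos _).1 hβ, hne⟩

/-- **The variational Hodge conjecture** for the product of powers of a family of abelian varieties
which moves in all parts relative to a family of varieties, and this family. -/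
theorem fam_main [Nonempty B] (hm : MovesRelativeTo Z Y) (n : ℕ) :
    FlatAreProducts (fun b => powPer (Z b) n) Y ∧
      VariationalReducesToY (fun b => powPer (Z b) n) Y := by
  have hZ := fun b => (base_period hm b).1
  have hpos := fun b => (base_period hm b).2
  refine ⟨fun F hF => ?_, fun C => ⟨fun h x hx b₀ hb₀ b => ?_, fun h F hF b₀ hb₀ b => ?_⟩⟩
  · exact base_integrals hm hF fun k _ e f β hf _ =>
      Submodule.subset_span ⟨k, f, _, hf, fun b => base_integral hm hF e β b, rfl⟩
  · have h1 := h (cross (oneA g n) x)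
      (fun b => cross_one_hodge (Z := Z b) (n := n) (Y b) (hx b)) b₀
      (C.cross_mem b₀ 0 (oneA g n) (fun b => oneA_hodge (Z := Z b)) x hb₀) b
    obtain ⟨e, β, hβ, hne⟩ := exists_top_fam hZ hpos n
    have h2 := C.integral_mem b _ h1 _ _ e β hβ
    rw [fibreIntegral_cross] at h2
    have h3 := (C.algY b).smul_mem (wedgeW (oneA g n) β e)⁻¹ h2
    rwa [smul_smul, inv_mul_cancel₀ hne, one_smul] at h3
  · refine base_integrals hm hF fun k j e f β hf hβ => ?_
    refine C.cross_mem b k f hf _ ?_
    refine h _ (fun b' => base_integral hm hF e β b') b₀ ?_ b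
    exact C.integral_mem b₀ F hb₀ k j e β hβ

end

end Pool.Agent.R913.Ind
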