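import Mathlib
import Pool.Agent.R913.Ind.FamMain

/-!
# The noncommutative variational Hodge conjecture for box products with families of abelian varieties
-/

set_option autoImplicit false
set_option linter.unusedSectionVars false

namespace Pool.Agent.R913.Ind

open Matrix Module Pool.Agent.H204R3.CM Pool.Agent.H194R3.CM
  Pool.Agent.W437.HC Pool.Agent.W437.HD Pool.Agent.W437.HP
  Pool.Agent.TH131.GHC Pool.Agent.TH504.VY

noncomputable section

section defs

variable {B W T : Type} [AddCommGroup W] [Module ℚ W] [AddCommGroup T] [Module ℂ T] {v : ℕ}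

/-- The images `K0A b k` (in degree `k`), `K0C b` and `K0P b` of the Grothendieck groups, with rational
coefficients, of the derived categories of the members `A_b` of a family of abelian varieties, of the
members `𝒞_b` of a linear admissible subcategory, and of `D(A_b) ⊠ 𝒞_b`, in the rational topological
K-theory `H(A_b)`, `K(𝒞_b)` and `H(A_b) ⊗ K(𝒞_b)`, with three of their properties: box products,
direct images to `𝒞_b` of the tensor products with objects of `D(A_b)`, and the classes of points of
`A_b`. -/
structure FamilyGroups (B W : Type) [AddCommGroup W] [Module ℚ W] (v : ℕ) where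
  /-- the images for the abelian varieties -/
  K0A : B → ∀ k : ℕ, Submodule ℚ (W [⋀^Fin k]→ₗ[ℚ] ℚ)
  /-- the images for the admissible subcategories -/
  K0C : B → Submodule ℚ (Fin v → ℚ)
  /-- the images for the box products -/
  K0P : B → Submodule ℚ (HAZ W v)
  box_mem : ∀ b, CrossAlg (K0A b) (K0C b) (K0P b)
  direct_mem : ∀ b, IntegralAlg (K0A b) (K0C b) (K0P b)
  point_mem : ∀ b β, β ∈ K0A b (finrank ℚ W)
  unit_mem : ∀ b β, β ∈ K0A b 0

/-- The flat Hodge classes on the family of abelian varieties are algebraic on all members. -/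
def FlatAlgebraic (per : B → W →+ T)
    (K0A : B → ∀ k : ℕ, Submodule ℚ (W [⋀^Fin k]→ₗ[ℚ] ℚ)) : Prop :=
  ∀ (k : ℕ) (f : W [⋀^Fin k]→ₗ[ℚ] ℚ), (∀ b, IsHodge (per b) f) → ∀ b, f ∈ K0A b k

/-- (1) If the flat Hodge classes on the family `A` are algebraic then the noncommutative
variational Hodge conjecture for `𝒞` implies the one for `D(A) ⊠ 𝒞`. (2) The noncommutative
variational Hodge conjecture for `D(A) ⊠ 𝒞` implies the one for `𝒞`. -/
def NCVariationalReduces (per : B → W →+ T) (K : B → Coh v) : Prop :=
  ∀ G : FamilyGroups B W v,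
    (FlatAlgebraic per G.K0A → Variational (fun b => IsHodgeOn (K b)) G.K0C →
      Variational (fun b => IsHodgeOnProduct (per b) (K b)) G.K0P) ∧
    (Variational (fun b => IsHodgeOnProduct (per b) (K b)) G.K0P →
      Variational (fun b => IsHodgeOn (K b)) G.K0C)

end defs

variable {B : Type} {g v : ℕ} {Z : B → Matrix (Fin g) (Fin g) ℂ} {K : B → Coh v}

/-- **The noncommutative variational Hodge conjecture** for box products. -/
theorem famNc_main [Nonempty B] (hm : MovesRelativeTo Z K) (n : ℕ) :
    FlatAreProducts (fun b => powPer (Z b) n) K ∧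
      NCVariationalReduces (fun b => powPer (Z b) n) K := by
  have hZ := fun b => (base_period hm b).1
  have hpos := fun b => (base_period hm b).2
  refine ⟨(fam_main hm n).1, fun G => ⟨fun hA h F hF b₀ hb₀ b => ?_,
    fun h x hx b₀ hb₀ b => ?_⟩⟩
  · refine base_integrals hm hF fun k j e f β hf hβ => ?_
    refine G.box_mem b k f (hA k f hf b) _ ?_
    refine h _ (fun b' => base_integral hm hF e β b') b₀ ?_ b
    exact G.direct_mem b₀ F hb₀ k j e β (hA j β hβ b₀)
  · have h1 := h (cross (oneA g n) x)
      (fun b => cross_one_hodge (Z := Z b) (n := n) (K b) (hx b)) b₀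
      (G.box_mem b₀ 0 (oneA g n) (G.unit_mem b₀ _) x hb₀) b
    obtain ⟨e, β, hβ, hne⟩ := exists_top_fam hZ hpos n
    have h2 := G.direct_mem b _ h1 _ _ e β (G.point_mem b β)
    rw [fibreIntegral_cross] at h2
    have h3 := (G.K0C b).smul_mem (wedgeW (oneA g n) β e)⁻¹ h2
    rwa [smul_smul, inv_mul_cancel₀ hne, one_smul] at h3

end

end Pool.Agent.R913.Ind
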