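import Mathlib
import Pool.Agent.R913.Ind.Conj

/-!
# The noncommutative Hodge conjecture for the box product of a power of an abelian variety and an
admissible subcategory
-/

set_option autoImplicit false
set_option linter.unusedSectionVars false

namespace Pool.Agent.R913.Ind

open Matrix Module Pool.Agent.H204R3.CM Pool.Agent.W437.HC
  Pool.Agent.W437.HD Pool.Agent.W437.HP Pool.Agent.TH131.GHC Pool.Agent.TH504.VY

noncomputable section

section defs

variable {W T : Type} [AddCommGroup W] [Module ℚ W] [AddCommGroup T] [Module ℂ T]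

/-- The images `K0A k` (in degree `k`), `K0C` and `K0P` of the Grothendieck groups, with rational
coefficients, of the derived category of a complex torus (an abelian variety) `A`, of an admissible
subcategory `𝒞` of the derived category of a smooth proper variety, and of `D(A) ⊠ 𝒞`, in the rational
topological K-theory `H(A)`, `K(𝒞)` and `H(A) ⊗ K(𝒞)`, with four of their properties: box products;
direct images to `𝒞` of the tensor products with objects of `D(A)` (the Todd class of `A` is one); the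
classes of points of `A`; and the images under the functor `D(A) ⊠ 𝒞 → D(A)` which is given by a
functor from `𝒞` to the derived category of vector spaces with the value `ev` in K-theory. -/
structure GrothendieckGroups (W : Type) [AddCommGroup W] [Module ℚ W] {v : ℕ}
    (ev : (Fin v → ℚ) →ₗ[ℚ] ℚ) where
  /-- the image for `A` -/
  K0A : ∀ k : ℕ, Submodule ℚ (W [⋀^Fin k]→ₗ[ℚ] ℚ)
  /-- the image for `𝒞` -/
  K0C : Submodule ℚ (Fin v → ℚ)
  /-- the image for `D(A) ⊠ 𝒞` -/
  K0P : Submodule ℚ (HAZ W v)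
  box_mem : CrossAlg K0A K0C K0P
  direct_mem : IntegralAlg K0A K0C K0P
  point_mem : ∀ β, β ∈ K0A (finrank ℚ W)
  functor_mem : ∀ F ∈ K0P, ∀ k : ℕ, ev.compAlternatingMap (F k) ∈ K0A k

/-- The Hodge conjecture for `A`. -/
def HodgeForA (per : W →+ T) (K0A : ∀ k : ℕ, Submodule ℚ (W [⋀^Fin k]→ₗ[ℚ] ℚ)) : Prop :=
  ∀ (k : ℕ) (f : W [⋀^Fin k]→ₗ[ℚ] ℚ), IsHodge per f → f ∈ K0A k

/-- The noncommutative Hodge conjecture for `𝒞`. -/
def HodgeForC {v : ℕ} (K : Coh v) (K0C : Submodule ℚ (Fin v → ℚ)) : Prop :=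
  ∀ x, IsHodgeOn K x → x ∈ K0C

/-- The noncommutative Hodge conjecture for `D(A) ⊠ 𝒞`. -/
def HodgeForBox (per : W →+ T) {v : ℕ} (K : Coh v) (K0P : Submodule ℚ (HAZ W v)) : Prop :=
  ∀ F, IsHodgeOnProduct per K F → F ∈ K0P

/-- The noncommutative Hodge conjecture for `D(A) ⊠ 𝒞` is equivalent to the Hodge conjecture for `A`
and the noncommutative Hodge conjecture for `𝒞`, if some Hodge class `u` of `𝒞` has `ev u = 1`; without
this, the two conjectures imply the one for `D(A) ⊠ 𝒞`, and this one implies the one for `𝒞`. -/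
def BoxReduces (per : W →+ T) {v : ℕ} (K : Coh v) : Prop :=
  ∀ (ev : (Fin v → ℚ) →ₗ[ℚ] ℚ) (G : GrothendieckGroups W ev),
    (HodgeForA per G.K0A → HodgeForC K G.K0C → HodgeForBox per K G.K0P) ∧
    (HodgeForBox per K G.K0P → HodgeForC K G.K0C) ∧
    ((∃ u, IsHodgeOn K u ∧ ev u = 1) → HodgeForBox per K G.K0P → HodgeForA per G.K0A)

end defs

variable {g v : ℕ} {Z : Matrix (Fin g) (Fin g) ℂ} {n : ℕ}

/-- **Box products.** -/
theorem box_main (hZ : Zᵀ = Z) (hpos : (imM Z).PosDef) (K : Coh v)
    (hI : Indep (DZ Z) K.z) : BoxReduces (powPer Z n) K := by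
  intro ev G
  refine ⟨fun hA hC F hF => ?_, fun h x hx => ?_, ?_⟩
  · exact mem_of_integrals hZ hpos K hI hF fun k _ e f β hf _ =>
      G.box_mem k f (hA k f hf) _ (hC _ (integral_mem hpos K hI hF e β))
  · have h1 := h _ (cross_one_hodge (Z := Z) (n := n) K hx)
    obtain ⟨e, β, hβ, hne⟩ := exists_top hZ hpos n
    have h2 := G.direct_mem _ h1 _ _ e β (G.point_mem β)
    rw [fibreIntegral_cross] at h2
    have h3 := G.K0C.smul_mem (wedgeW (oneA g n) β e)⁻¹ h2
    rwa [smul_smul, inv_mul_cancel₀ hne, one_smul] at h3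
  · rintro ⟨u, hu, hev⟩ h k f hf
    have h1 := G.functor_mem _ (h _ (cross_hodge K hf hu)) k
    have h2 : ev.compAlternatingMap (cross f u k) = f := by
      refine AlternatingMap.ext fun w => ?_
      unfold cross
      rw [Pi.single_eq_same]
      change ev (f w • u) = f w
      rw [map_smul, hev, smul_eq_mul, mul_one]
    rwa [h2] at h1

end

end Pool.Agent.R913.Ind
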